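import Pool.Agent.Lib.MP_436e1a_gt.B.Emb

/-! A closed oriented manifold from a set with compatible parametrisations. -/

open scoped ContDiff
open Set

namespace Pool.Agent.CSP

/-- the topology defined by the parametrisations -/
@[reducible] def glue_top {X A : Type} (f : A → E 5 → X) (W : A → Set (E 5))
    (hW : ∀ a, IsOpen (W a)) : TopologicalSpace X where
  IsOpen S := ∀ a, IsOpen (W a ∩ f a ⁻¹' S)
  isOpen_univ a := by simpa using hW a
  isOpen_inter s t hs ht a := by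
    rw [preimage_inter, inter_inter_distrib_left]
    exact (hs a).inter (ht a)
  isOpen_sUnion s hs a := by
    rw [preimage_sUnion, inter_iUnion₂]
    exact isOpen_biUnion fun t ht => hs t ht a

/-- Sketch. Declare `S ⊆ X` open iff all `W a ∩ f a ⁻¹' S` are open. Each `f a` is continuous on `W a`,
and maps open subsets of `W a` to open sets (by `tr`: `τ` is continuous). Build the chart
`OpenPartialHomeomorph X (E 5)` with source `f a '' W a`, target `W a`, inverse `f a`, map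
`Function.invFunOn (f a) (W a)`; atlas = range; `chartAt x` by choice. Near a point of its source the
transition map of two charts agrees with `τ` (injectivity), which gives `isManifold_of_contDiffOn`
and `ori`. Take the carrier `X` and `e = Equiv.refl`. `Emb 1 (f a) (W a)` is the second half of
`Mfd.emb_chart`. -/
theorem exists_glue {X A : Type} (f : A → E 5 → X) (W : A → Set (E 5)) (hW : ∀ a, IsOpen (W a))
    (hi : ∀ a, InjOn (f a) (W a)) (hc : ∀ x, ∃ a, ∃ v ∈ W a, f a v = x)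
    (tr : ∀ a b, ∀ v ∈ W a, f a v ∈ f b '' W b → ∃ (N : Set (E 5)) (τ : E 5 → E 5), IsOpen N ∧
      v ∈ N ∧ N ⊆ W a ∧ ContDiffOn ℝ ∞ τ N ∧ MapsTo τ N (W b) ∧ (∀ u ∈ N, f b (τ u) = f a u) ∧
      0 < (fderiv ℝ τ v).det)
    (sep : ∀ x y, x ≠ y → ∃ a b U V, IsOpen U ∧ IsOpen V ∧ U ⊆ W a ∧ V ⊆ W b ∧ x ∈ f a '' U ∧
      y ∈ f b '' V ∧ Disjoint (f a '' U) (f b '' V))
    (cpt : ∃ (s : Finset A) (K : A → Set (E 5)), (∀ a ∈ s, IsCompact (K a) ∧ K a ⊆ W a) ∧
      ∀ x, ∃ a ∈ s, x ∈ f a '' K a)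
    (ne : Nonempty X)
    (conn : ∀ S : Set X, (∀ a, IsOpen (W a ∩ f a ⁻¹' S)) → (∀ a, IsOpen (W a ∩ f a ⁻¹' Sᶜ)) →
      S = ∅ ∨ S = univ) :
    ∃ (M : Mfd) (e : X ≃ M), ∀ a, Emb 1 (fun v => e (f a v)) (W a) := by
  let _ := glue_top f W hW
  have ho : ∀ S : Set X, IsOpen S ↔ ∀ a, IsOpen (W a ∩ f a ⁻¹' S) := fun _ => Iff.rfl
  have cont : ∀ a, ContinuousOn (f a) (W a) := fun a =>
    (continuousOn_open_iff (hW a)).2 fun t ht => (ho t).1 ht a
  have opn : ∀ b U, IsOpen U → U ⊆ W b → IsOpen (f b '' U) := fun b U hU hs => (ho _).2 fun a => by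
    refine isOpen_iff_forall_mem_open.2 fun v ⟨hv, u, hu, e⟩ => ?_
    obtain ⟨N, τ, h1, h2, h3, h4, h5, h6, -⟩ := tr a b v hv ⟨u, hs hu, e⟩
    refine ⟨N ∩ τ ⁻¹' U, fun w hw => ⟨h3 hw.1, τ w, hw.2, h6 w hw.1⟩,
      h4.continuousOn.isOpen_inter_preimage h1 hU, h2, ?_⟩
    rw [mem_preimage, hi b (h5 h2) (hs hu) ((h6 v h2).trans e.symm)]
    exact hu
  obtain ⟨g, g1, g2, g3⟩ : ∃ g : A → OpenPartialHomeomorph (E 5) X, (∀ a, (g a).source = W a) ∧
      (∀ a, (g a).target = f a '' W a) ∧ ∀ a, (g a : E 5 → X) = f a :=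
    ⟨fun a => OpenPartialHomeomorph.ofContinuousOpenRestrict ((hi a).toPartialEquiv)
      (cont a) (fun U hU => by
        have h := opn a _ ((hW a).isOpenMap_subtype_val U hU) (Subtype.coe_image_subset _ U)
        rwa [image_image] at h) (hW a), fun _ => rfl, fun _ => rfl, fun _ => rfl⟩
  have key : ∀ a b, ∀ v ∈ ((g a).trans (g b).symm).source,
      ContDiffAt ℝ ∞ ((g a).trans (g b).symm) v ∧
        0 < (fderiv ℝ ((g a).trans (g b).symm) v).det := fun a b v hv => by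
    obtain ⟨N, τ, h1, h2, -, h4, h5, h6, h7⟩ := tr a b v (g1 a ▸ hv.1) (g2 b ▸ g3 a ▸ hv.2)
    have e : ((g a).trans (g b).symm : E 5 → E 5) =ᶠ[nhds v] τ := by
      filter_upwards [h1.mem_nhds h2] with u hu
      rw [OpenPartialHomeomorph.trans_apply, g3, ← h6 u hu, ← g3]
      exact (g b).left_inv (g1 b ▸ h5 hu)
    rw [e.fderiv_eq]
    exact ⟨(h4.contDiffAt (h1.mem_nhds h2)).congr_of_eventuallyEq e, h7⟩
  choose c v hv hf using hc
  let _ : ChartedSpace (E 5) X :=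
    { atlas := range fun a => (g a).symm
      chartAt := fun x => (g (c x)).symm
      mem_chart_source := fun x => (g2 (c x)).ge ⟨v x, hv x, hf x⟩
      chart_mem_atlas := fun x => mem_range_self (c x) }
  have : IsManifold (modelWithCornersSelf ℝ (E 5)) ∞ X := by
    refine isManifold_of_contDiffOn _ _ _ ?_
    rintro _ _ ⟨a, rfl⟩ ⟨b, rfl⟩ w hw
    exact (key a b w hw.1).1.contDiffWithinAt
  have : T2Space X := ⟨fun x y h => by
    obtain ⟨a, b, U, V, h1, h2, h3, h4, h5⟩ := sep x y h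
    exact ⟨_, _, opn a U h1 h3, opn b V h2 h4, h5⟩⟩
  have : CompactSpace X := ⟨by
    obtain ⟨s, K, h1, h2⟩ := cpt
    refine (s.isCompact_biUnion fun a ha =>
      (h1 a ha).1.image_of_continuousOn ((cont a).mono (h1 a ha).2)).of_isClosed_subset
        isClosed_univ fun x _ => ?_
    obtain ⟨a, ha, hx⟩ := h2 x
    exact mem_biUnion ha hx⟩
  have : PreconnectedSpace X := preconnectedSpace_iff_clopen.2 fun S h =>
    conn S ((ho _).1 h.2) ((ho _).1 h.1.isOpen_compl)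
  have : ConnectedSpace X := ⟨ne⟩
  let M : Mfd := ⟨X, by
    rintro _ ⟨a, rfl⟩ _ ⟨b, rfl⟩ w hw
    exact (key a b w hw).2⟩
  refine ⟨M, Equiv.refl X, fun a => ?_⟩
  rw [← g1, ← g3]
  exact (M.emb_chart (e := (g a).symm) ⟨a, rfl⟩).2

end Pool.Agent.CSP
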