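import Pool.Agent.Lib.MP_436e1a_gt.J.Glue
import Pool.Agent.Lib.MP_436e1a_gt.A.Radial
import Pool.Agent.Lib.MP_436e1a_gt.A.TubeL
import Pool.Agent.Lib.MP_436e1a_gt.B.AmbEx
import Pool.Agent.Lib.MP_436e1a_gt.D.Conn

/-! The 5-sphere as the one point compactification of `E 5`. -/

open Set

namespace Pool.Agent.CSP

/-- `σ` is a chart onto the complement of the point `i₀ 0`, and `i₀` is the inverted chart -/
structure IsSph (S : Mfd) (σ i₀ : E 5 → S) : Prop where
  emb : Emb 1 σ univ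
  emb' : Emb 1 i₀ univ
  range : range σ = {i₀ 0}ᶜ
  inv : ∀ v, v ≠ 0 → i₀ v = σ (inv5 (rfl5 v))

theorem sph_tt (v : E 5) : inv5 (rfl5 (inv5 (rfl5 v))) = v := by
  have e : rfl5 (inv5 (rfl5 v)) = inv5 v := by
    unfold inv5
    rw [rfl5_smul, rfl5_rfl5, norm_rfl5]
  rw [e, inv5_inv5]

theorem sph_norm (v : E 5) : ‖inv5 (rfl5 v)‖ = ‖v‖⁻¹ := by
  rw [norm_inv5, norm_rfl5]

theorem sph_r {v : E 5} (h : v ≠ 0) : rfl5 v ≠ 0 := by
  rwa [← norm_ne_zero_iff, norm_rfl5, norm_ne_zero_iff]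

theorem sph_ne {v : E 5} (h : v ≠ 0) : inv5 (rfl5 v) ≠ 0 :=
  inv5_ne_zero (sph_r h)

theorem sph_det {v : E 5} (h : v ≠ 0) : 0 < (fderiv ℝ (inv5 ∘ rfl5) v).det := by
  have h1 := (contDiffOn_inv5.contDiffAt (isOpen_compl_singleton.mem_nhds
    (sph_r h))).differentiableAt (by simp)
  have h2 := contDiff_rfl5.differentiable (by simp) v
  rw [← jac_eq_det, jac_comp h1.mdifferentiableAt h2.mdifferentiableAt, jac_eq_det, jac_eq_det,
    det_rfl5]
  linarith [det_inv5 (sph_r h)]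

open Classical in
/-- the two parametrisations -/
noncomputable def sph_f (a : Bool) (v : E 5) : Option (E 5) :=
  if a then if v = 0 then none else some (inv5 (rfl5 v)) else some v

theorem sph_f0 (v : E 5) : sph_f false v = some v := by
  simp [sph_f]

theorem sph_f1 : sph_f true 0 = none := by
  simp [sph_f]

theorem sph_f2 {v : E 5} (h : v ≠ 0) : sph_f true v = some (inv5 (rfl5 v)) := by
  simp [sph_f, h]

theorem sph_f3 {v : E 5} (h : v ≠ 0) : sph_f true (inv5 (rfl5 v)) = some v := by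
  rw [sph_f2 (sph_ne h), sph_tt]

theorem sph_inj (a : Bool) : Function.Injective (sph_f a) := by
  intro u v h
  cases a
  · simpa only [sph_f0, Option.some.injEq] using h
  · by_cases hu : u = 0 <;> by_cases hv : v = 0
    · rw [hu, hv]
    · rw [hu, sph_f1, sph_f2 hv] at h
      cases h
    · rw [hv, sph_f1, sph_f2 hu] at h
      cases h
    · rw [sph_f2 hu, sph_f2 hv, Option.some.injEq] at h
      rw [← sph_tt u, h, sph_tt]

theorem sph_sep (v : E 5) : Disjoint (sph_f true '' Metric.ball 0 (‖v‖ + 1)⁻¹)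
    (sph_f false '' Metric.ball 0 (‖v‖ + 1)) := by
  rw [Set.disjoint_left]
  rintro _ ⟨u, hu, rfl⟩ ⟨w, hw, e⟩
  by_cases h : u = 0
  · rw [h, sph_f0, sph_f1] at e
    cases e
  · rw [sph_f0, sph_f2 h, Option.some.injEq] at e
    rw [mem_ball_zero_iff] at hu hw
    rw [e, sph_norm, inv_lt_comm₀ (norm_pos_iff.2 h) (by positivity)] at hw
    exact lt_asymm hu hw

theorem sph_all {S : Set (Option (E 5))} (h : ∀ a, sph_f a ⁻¹' S = ∅ ∨ sph_f a ⁻¹' S = univ)
    {v : E 5} (hv : v ≠ 0) (hS : some v ∈ S) : S = univ := by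
  have h0 := (h false).resolve_left (Nonempty.ne_empty ⟨v, by rwa [mem_preimage, sph_f0]⟩)
  have h1 := (h true).resolve_left
    (Nonempty.ne_empty ⟨inv5 (rfl5 v), by rwa [mem_preimage, sph_f3 hv]⟩)
  refine eq_univ_of_forall ?_
  rintro (_ | u)
  · rw [← sph_f1]
    exact eq_univ_iff_forall.1 h1 0
  · rw [← sph_f0]
    exact eq_univ_iff_forall.1 h0 u

theorem exists_sph : ∃ S σ i₀, IsSph S σ i₀ := by
  have hc : ∀ x, ∃ a, ∃ v ∈ Metric.closedBall (0 : E 5) 1, sph_f a v = x := by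
    rintro (_ | v)
    · exact ⟨true, 0, by simp, sph_f1⟩
    · by_cases h : ‖v‖ ≤ 1
      · exact ⟨false, v, mem_closedBall_zero_iff.2 h, sph_f0 v⟩
      · refine ⟨true, _, mem_closedBall_zero_iff.2 ?_, sph_f3 fun e => h (by simp [e])⟩
        rw [sph_norm]
        exact inv_le_one_of_one_le₀ (not_le.1 h).le
  refine (exists_glue sph_f (fun _ => univ) (fun _ => isOpen_univ)
    (fun a => (sph_inj a).injOn) (fun x => let ⟨a, v, _, e⟩ := hc x; ⟨a, v, trivial, e⟩) ?_ ?_
    ⟨Finset.univ, fun _ => Metric.closedBall 0 1,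
      fun _ _ => ⟨isCompact_closedBall _ _, subset_univ _⟩,
      fun x => let ⟨a, v, h, e⟩ := hc x; ⟨a, Finset.mem_univ _, v, h, e⟩⟩ ⟨none⟩ ?_).elim
    fun M ⟨e, h⟩ => ⟨M, _, _, h false, h true, ?_, fun v hv => by rw [sph_f0, sph_f2 hv]⟩
  · intro a b v _ ⟨w, _, hw⟩
    by_cases hab : a = b
    · exact ⟨univ, id, isOpen_univ, trivial, subset_rfl, contDiffOn_id, mapsTo_univ _ _,
        fun _ _ => by rw [hab, id], by rw [← jac_eq_det, jac_id]; exact one_pos⟩
    · have hv : v ≠ 0 := by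
        rintro rfl
        cases a <;> cases b <;> try exact hab rfl
        · by_cases h : w = 0
          · rw [h, sph_f0, sph_f1] at hw
            cases hw
          · rw [sph_f0, sph_f2 h, Option.some.injEq] at hw
            exact sph_ne h hw
        · rw [sph_f0, sph_f1] at hw
          cases hw
      refine ⟨{0}ᶜ, inv5 ∘ rfl5, isOpen_compl_singleton, hv, subset_univ _,
        contDiffOn_inv5.comp contDiff_rfl5.contDiffOn fun u hu => sph_r hu, mapsTo_univ _ _,
        fun u hu => ?_, sph_det hv⟩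
      cases a <;> cases b <;> try exact absurd rfl hab
      · exact (sph_f3 hu).trans (sph_f0 u).symm
      · exact (sph_f0 _).trans (sph_f2 hu).symm
  · have m0 : ∀ v : E 5, none ∈ sph_f true '' Metric.ball 0 (‖v‖ + 1)⁻¹ := fun v =>
      ⟨0, Metric.mem_ball_self (by positivity), sph_f1⟩
    have m1 : ∀ v : E 5, some v ∈ sph_f false '' Metric.ball 0 (‖v‖ + 1) := fun v =>
      ⟨v, mem_ball_zero_iff.2 (lt_add_one _), sph_f0 v⟩
    rintro (_ | u) (_ | v) hxy
    · exact absurd rfl hxy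
    · exact ⟨true, false, _, _, Metric.isOpen_ball, Metric.isOpen_ball, subset_univ _,
        subset_univ _, m0 v, m1 v, sph_sep v⟩
    · exact ⟨false, true, _, _, Metric.isOpen_ball, Metric.isOpen_ball, subset_univ _,
        subset_univ _, m1 u, m0 u, (sph_sep u).symm⟩
    · obtain ⟨U, V, h1, h2, h3, h4, h5⟩ := t2_separation fun e : u = v => hxy (congrArg _ e)
      exact ⟨false, false, U, V, h1, h2, subset_univ _, subset_univ _, ⟨u, h3, sph_f0 u⟩,
        ⟨v, h4, sph_f0 v⟩, (disjoint_image_iff (sph_inj false)).2 h5⟩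
  · intro S h1 h2
    simp only [univ_inter] at h1 h2
    have h3 : ∀ a, IsClopen (sph_f a ⁻¹' S) := fun a => ⟨⟨h2 a⟩, h1 a⟩
    obtain ⟨v, hv⟩ := exists_ne (0 : E 5)
    by_cases h : some v ∈ S
    · exact Or.inr (sph_all (fun a => isClopen_iff.1 (h3 a)) hv h)
    · exact Or.inl (compl_univ_iff.1 (sph_all (fun a => isClopen_iff.1 (h3 a).compl) hv h))
  · ext x
    obtain ⟨x, rfl⟩ := e.surjective x
    rcases x with _ | v <;> simp [sph_f0, sph_f1]

theorem IsSph.sc {S : Mfd} {σ i₀ : E 5 → S} (h : IsSph S σ i₀) : SimplyConnectedSpace S := by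
  obtain ⟨A⟩ := exists_amb S
  have h1 : Topology.IsOpenEmbedding σ := .of_continuous_injective_isOpenMap
    (continuousOn_univ.1 h.emb.continuousOn) (injOn_univ.1 h.emb.2.1)
    fun U hU => h.emb.isOpen_image isOpen_univ hU (subset_univ _)
  have h2 : SimplyConnectedSpace (({i₀ 0} : Set S)ᶜ : Set S) := by
    rw [← h.range]
    exact h1.isEmbedding.toHomeomorph.toHomotopyEquiv.symm.simplyConnectedSpace
  refine sc_of_compl A (Z := {i₀ 0}) ?_
  rw [image_singleton]
  exact (thin_singleton _).of_le (Nat.zero_le _)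

end Pool.Agent.CSP
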