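import Pool.Agent.Lib.MP_436e1a_gt.J.SurgDef
import Pool.Agent.Lib.MP_436e1a_gt.J.Sph

/-! A surgery on a link inside a disc is a connected sum. -/

open Set

namespace Pool.Agent.CSP

theorem asm_rfl0 : rfl5 0 = 0 := norm_eq_zero.1 ((norm_rfl5 0).trans norm_zero)

theorem asm_rfl_ne {v : E 5} (h : v ≠ 0) : rfl5 v ≠ 0 := by
  rw [← norm_ne_zero_iff, norm_rfl5, norm_ne_zero_iff]
  exact h

theorem asm_rfl_inv (v : E 5) : rfl5 ((‖v‖ ^ 2)⁻¹ • v) = inv5 (rfl5 v) := by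
  rw [rfl5_smul, inv5, norm_rfl5]

theorem asm_emb_rfl : Emb (-1) rfl5 univ :=
  emb_of_contDiffOn contDiff_rfl5.contDiffOn
    (fun a _ b _ e => by rw [← rfl5_rfl5 a, e, rfl5_rfl5]) fun v _ => by rw [det_rfl5]; norm_num

theorem asm_emb_inv : Emb (-1) inv5 {0}ᶜ :=
  emb_of_contDiffOn contDiffOn_inv5
    (fun a _ b _ e => by rw [← inv5_inv5 a, e, inv5_inv5]) fun v hv => by
      have := det_inv5 (v := v) hv
      linarith

theorem asm_comp {X Y Z : Type} [TopologicalSpace X] [ChartedSpace (E 5) X]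
    [TopologicalSpace Y] [ChartedSpace (E 5) Y] [TopologicalSpace Z] [ChartedSpace (E 5) Z]
    {s : ℝ} {f : X → Y} {g : Y → Z} {W : Set X} {V : Set Y} (hg : Emb 1 g V) (hf : Emb s f W)
    (hV : IsOpen V) (hW : IsOpen W) (hm : MapsTo f W V) : Emb s (fun x => g (f x)) W := by
  have := hg.comp hf hV hW hm
  rwa [one_mul] at this

theorem asm_emb_ir : Emb 1 (fun v => inv5 (rfl5 v)) {0}ᶜ := by
  have := asm_emb_inv.comp (asm_emb_rfl.mono (subset_univ {0}ᶜ)) isOpen_compl_singleton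
    isOpen_compl_singleton fun v hv => asm_rfl_ne hv
  rwa [show (-1 * -1 : ℝ) = 1 by norm_num] at this

/-- the disc in the sphere -/
theorem asm_i {S : Mfd} {σ i₀ : E 5 → S} (hS : IsSph S σ i₀) {μ : E 5 → E 5} {R' : ℝ}
    (hμ : Emb 1 μ {0}ᶜ) (hR : ∀ v, R' ≤ ‖v‖ → μ v = v) : ∃ i₁ : E 5 → S, Emb 1 i₁ univ ∧
      i₁ 0 = i₀ 0 ∧ ∀ v, v ≠ 0 → i₁ v = σ (μ (inv5 (rfl5 v))) := by
  classical
  have h1 : Emb 1 (fun v => σ (μ (inv5 (rfl5 v)))) {0}ᶜ :=
    asm_comp hS.emb (asm_comp hμ asm_emb_ir isOpen_compl_singleton isOpen_compl_singleton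
      fun v hv => inv5_ne_zero (asm_rfl_ne hv)) isOpen_univ isOpen_compl_singleton (mapsTo_univ _ _)
  have h2 : ∀ u, σ u ≠ i₀ 0 := fun u => by
    have : σ u ∈ range σ := mem_range_self u
    rwa [hS.range] at this
  refine ⟨fun v => if v = 0 then i₀ 0 else σ (μ (inv5 (rfl5 v))), emb_of_local ?_ ?_, if_pos rfl,
    fun v hv => if_neg hv⟩
  · intro a _ b _ e
    by_cases ha : a = 0 <;> by_cases hb : b = 0
    · rw [ha, hb]
    · simp only [if_pos ha, if_neg hb] at e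
      exact absurd e.symm (h2 _)
    · simp only [if_neg ha, if_pos hb] at e
      exact absurd e (h2 _)
    · simp only [if_neg ha, if_neg hb] at e
      exact h1.2.1 ha hb e
  · intro x _
    by_cases hx : x = 0
    · have hp : 0 < max R' 1 := lt_max_of_lt_right one_pos
      refine ⟨Metric.ball 0 (max R' 1)⁻¹, i₀, Metric.isOpen_ball, ?_,
        hS.emb'.mono (subset_univ _), fun v hv => ?_⟩
      · rw [hx]
        exact Metric.mem_ball_self (inv_pos.2 hp)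
      · by_cases h0 : v = 0
        · simp only [h0, if_true]
        · simp only [if_neg h0]
          rw [hS.inv v h0, hR]
          rw [norm_inv5, norm_rfl5]
          rw [mem_ball_zero_iff, lt_inv_comm₀ (norm_pos_iff.2 h0) hp] at hv
          exact (le_max_left _ _).trans hv.le
    · exact ⟨{0}ᶜ, _, isOpen_compl_singleton, hx, h1, fun v hv => if_neg hv⟩

/-- the expansion of the puncture -/
theorem asm_b {M' : Mfd} {j : E 5 → M'} (hj : Emb 1 j univ) {μ : E 5 → E 5} {R' : ℝ}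
    (hμ : Emb 1 μ {0}ᶜ) (hR : ∀ v, R' ≤ ‖v‖ → μ v = v) : ∃ b₀ : M' → M', Emb 1 b₀ {j 0}ᶜ ∧
      (∀ w, b₀ (j w) = j (μ w)) ∧ ∀ y, y ∉ range j → b₀ y = y := by
  classical
  obtain ⟨k, hk, hl, -⟩ := hj.exists_inv isOpen_univ
  have e1 : ∀ w, (if j w ∈ range j then j (μ (k (j w))) else j w) = j (μ w) := fun w => by
    rw [if_pos (mem_range_self w), hl w trivial]
  have hne : ∀ w, j w ∈ ({j 0}ᶜ : Set M') → w ≠ 0 := fun w hw e => hw (by rw [e]; rfl)
  refine ⟨fun y => if y ∈ range j then j (μ (k y)) else y, emb_of_local ?_ ?_, e1,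
    fun y hy => if_neg hy⟩
  · intro a ha b hb e
    by_cases ha' : a ∈ range j <;> by_cases hb' : b ∈ range j
    · obtain ⟨a, rfl⟩ := ha'
      obtain ⟨b, rfl⟩ := hb'
      simp only [e1] at e
      rw [hμ.2.1 (hne a ha) (hne b hb) (hj.2.1 trivial trivial e)]
    · simp only [if_pos ha', if_neg hb'] at e
      exact absurd ⟨_, e⟩ hb'
    · simp only [if_neg ha', if_pos hb'] at e
      exact absurd ⟨_, e.symm⟩ ha'
    · simpa only [if_neg ha', if_neg hb'] using e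
  · intro x hx
    by_cases hx' : x ∈ range j
    · obtain ⟨w, rfl⟩ := hx'
      have ho : IsOpen (j '' {0}ᶜ) :=
        hj.isOpen_image isOpen_univ isOpen_compl_singleton (subset_univ _)
      refine ⟨j '' {0}ᶜ, fun y => j (μ (k y)), ho, ⟨w, hne w hx, rfl⟩, ?_, ?_⟩
      · refine asm_comp hj (asm_comp hμ (hk.mono (image_mono (subset_univ _)))
          isOpen_compl_singleton ho ?_) isOpen_univ ho (mapsTo_univ _ _)
        rintro _ ⟨u, hu, rfl⟩
        rw [hl u trivial]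
        exact hu
      · rintro _ ⟨u, -, rfl⟩
        exact if_pos (mem_range_self u)
    · have hc : IsCompact (j '' Metric.closedBall 0 R') :=
        (isCompact_closedBall 0 R').image_of_continuousOn (hj.continuousOn.mono (subset_univ _))
      refine ⟨(j '' Metric.closedBall 0 R')ᶜ, id, hc.isClosed.isOpen_compl,
        fun h => hx' (image_subset_range _ _ h), emb_id _, fun y hy => ?_⟩
      by_cases hy' : y ∈ range j
      · obtain ⟨u, rfl⟩ := hy'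
        refine (e1 u).trans ?_
        rw [hR u]
        · rfl
        · by_contra hlt
          exact hy ⟨u, mem_closedBall_zero_iff.2 (not_le.1 hlt).le, rfl⟩
      · exact if_neg hy'

theorem asm_cores {ι : Type} {X : Mfd} {j : E 5 → X} (hj : Emb 1 j univ) {k₀ : ι → E 5 → E 5}
    {u : E 5} : j u ∈ cores (fun i v => j (k₀ i v)) ↔ ∃ i, ∃ v ∈ Sc, k₀ i v = u := by
  simp only [cores, mem_iUnion, mem_image]
  exact exists_congr fun i => exists_congr fun v => and_congr_right fun _ =>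
    ⟨fun e => hj.2.1 trivial trivial e, fun e => by rw [e]⟩

theorem asm_uniq {ι : Type} {X : Mfd} {k : ι → E 5 → X} (H : FLM k) {i i' : ι} {w w' : E 5}
    (hw : w ∈ Sc) (hw' : w' ∈ Sc) (e : k i w = k i' w') : i = i' ∧ w = w' := by
  obtain ⟨W, -, hs, he, hd⟩ := H
  obtain rfl := hd i i' w (hs hw) w' (hs hw') e
  exact ⟨rfl, (he i).2.1 (hs hw) (hs hw') e⟩

theorem asm_mem {ι : Type} {X : Mfd} {k : ι → E 5 → X} {x : X} :
    x ∈ cores k ↔ ∃ i, ∃ v ∈ Sc, k i v = x := by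
  simp only [cores, mem_iUnion, mem_image]

/-- the copy of the punctured manifold `P` -/
theorem asm_a {ι : Type} [Finite ι] {S P M' M : Mfd} {σ : E 5 → S} {o : S} (hσ : Emb 1 σ univ)
    (hr : range σ = {o}ᶜ) {k₀ : ι → E 5 → E 5} {kP : ι → E 5 → P} {θP : S → P}
    {θP' : P → S} (hP : Surg (fun i v => σ (k₀ i v)) kP θP θP') {j : E 5 → M'}
    (hj : Emb 1 j univ) {h : ι → E 5 → M} {θ : M' → M} {θ' : M → M'}
    (hM : Surg (fun i v => j (k₀ i v)) h θ θ') : ∃ a : P → M, Emb 1 a {θP o}ᶜ ∧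
      (∀ u, (¬∃ i, ∃ v ∈ Sc, k₀ i v = u) → a (θP (σ u)) = θ (j u)) ∧
      ∀ i, ∀ w ∈ Sc, a (kP i w) = h i w := by
  classical
  obtain ⟨s, hs, hl, -⟩ := hσ.exists_inv isOpen_univ
  have hch : ∀ x : P, ∃ z : M, ∀ i, ∀ w ∈ Sc, kP i w = x → z = h i w := fun x => by
    by_cases hx : ∃ i, ∃ w ∈ Sc, kP i w = x
    · obtain ⟨i, w, hw, rfl⟩ := hx
      refine ⟨h i w, fun i' w' hw' e => ?_⟩
      obtain ⟨rfl, rfl⟩ := asm_uniq hP.fk hw' hw e
      rfl
    · exact ⟨θ (j 0), fun i w hw e => absurd ⟨i, w, hw, e⟩ hx⟩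
  choose c hc using hch
  obtain ⟨a, ha1, ha2⟩ : ∃ a : P → M, (∀ x, x ∉ cores kP → a x = θ (j (s (θP' x)))) ∧
      ∀ i, ∀ w ∈ Sc, a (kP i w) = h i w :=
    ⟨fun x => if x ∈ cores kP then c x else θ (j (s (θP' x))), fun x hx => if_neg hx,
      fun i w hw => (if_pos (asm_mem.2 ⟨i, w, hw, rfl⟩)).trans (hc _ i w hw rfl)⟩
  have ha3 : ∀ u, (¬∃ i, ∃ v ∈ Sc, k₀ i v = u) → a (θP (σ u)) = θ (j u) := fun u hu => by
    have h1 := mt (asm_cores hσ).1 hu
    rw [ha1 _ (hP.maps h1), hP.left _ h1, hl u trivial]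
  have oP : IsOpen (cores kP)ᶜ := hP.fk.isCompact.isClosed.isOpen_compl
  have oM : IsOpen (cores fun i v => j (k₀ i v))ᶜ := hM.fh.isCompact.isClosed.isOpen_compl
  have oW : IsOpen ((cores kP)ᶜ ∩ {θP o}ᶜ) := oP.inter isOpen_compl_singleton
  have hsur : ∀ x ∈ (cores kP)ᶜ ∩ {θP o}ᶜ, ∃ u, σ u = θP' x ∧ ¬∃ i, ∃ v ∈ Sc, k₀ i v = u := by
    intro x hx
    have h1 : θP' x ∈ range σ := by
      rw [hr]
      intro e
      exact hx.2 (by rw [← mem_singleton_iff.1 e, hP.right x hx.1]; rfl)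
    obtain ⟨u, hu⟩ := h1
    refine ⟨u, hu, mt (asm_cores hσ).2 ?_⟩
    rw [hu]
    exact hP.maps' hx.1
  have hmap : ∀ x ∈ (cores kP)ᶜ ∩ {θP o}ᶜ, j (s (θP' x)) ∉ cores fun i v => j (k₀ i v) := by
    intro x hx
    obtain ⟨u, hu, hn⟩ := hsur x hx
    rw [← hu, hl u trivial]
    exact mt (asm_cores hj).1 hn
  have h0 : Emb 1 (fun x => θ (j (s (θP' x)))) ((cores kP)ᶜ ∩ {θP o}ᶜ) := by
    refine asm_comp hM.emb (asm_comp hj (asm_comp hs (hP.emb'.mono inter_subset_left)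
      (hσ.isOpen_image isOpen_univ isOpen_univ subset_rfl) oW fun x hx => ?_) isOpen_univ oW
      (mapsTo_univ _ _)) oM oW hmap
    obtain ⟨u, hu, -⟩ := hsur x hx
    exact ⟨u, trivial, hu⟩
  refine ⟨a, emb_of_local ?_ ?_, ha3, ha2⟩
  · intro x hx y hy e
    by_cases hx' : x ∈ cores kP <;> by_cases hy' : y ∈ cores kP
    · obtain ⟨i, w, hw, rfl⟩ := asm_mem.1 hx'
      obtain ⟨i', w', hw', rfl⟩ := asm_mem.1 hy'
      rw [ha2 i w hw, ha2 i' w' hw'] at e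
      obtain ⟨rfl, rfl⟩ := asm_uniq hM.fk hw hw' e
      rfl
    · obtain ⟨i, w, hw, rfl⟩ := asm_mem.1 hx'
      rw [ha2 i w hw, ha1 y hy'] at e
      exact absurd (asm_mem.2 ⟨i, w, hw, e⟩) (hM.maps (hmap y ⟨hy', hy⟩))
    · obtain ⟨i, w, hw, rfl⟩ := asm_mem.1 hy'
      rw [ha2 i w hw, ha1 x hx'] at e
      exact absurd (asm_mem.2 ⟨i, w, hw, e.symm⟩) (hM.maps (hmap x ⟨hx', hx⟩))
    · rw [ha1 x hx', ha1 y hy'] at e
      exact h0.2.1 ⟨hx', hx⟩ ⟨hy', hy⟩ e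
  · intro x hx
    by_cases hx' : x ∈ cores kP
    · obtain ⟨i, w, hw, rfl⟩ := asm_mem.1 hx'
      obtain ⟨δ₁, p₁, s₁⟩ := hP.swap
      obtain ⟨δ₂, p₂, s₂⟩ := hM.swap
      obtain ⟨δ₃, p₃, s₃⟩ := hP.fh.exists_rad
      obtain ⟨W, hW, hsW, heW, -⟩ := hP.fk
      obtain ⟨V, hV, hsV, heV, -⟩ := hM.fk
      obtain ⟨δ₄, p₄, s₄⟩ := exists_tube_subset ((hW.inter hV).mem_nhdsSet.2 (subset_inter hsW hsV))
      obtain ⟨δ, p, l₁, l₂, l₃, l₄⟩ : ∃ δ : ℝ, 0 < δ ∧ δ ≤ δ₁ ∧ δ ≤ δ₂ ∧ δ ≤ δ₃ ∧ δ ≤ δ₄ :=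
        ⟨min (min δ₁ δ₂) (min δ₃ δ₄), lt_min (lt_min p₁ p₂) (lt_min p₃ p₄),
          (min_le_left _ _).trans (min_le_left _ _), (min_le_left _ _).trans (min_le_right _ _),
          (min_le_right _ _).trans (min_le_left _ _), (min_le_right _ _).trans (min_le_right _ _)⟩
      have oT := isOpen_thin_tube δ
      have hT : {v : E 5 | pr3 v ≠ 0 ∧ ‖tnu v‖ < δ} ⊆ W ∩ V := fun v hv => by
        rw [← tube_tnu hv.1]
        exact s₄ _ (nrm_mem hv.1) _ (hv.2.le.trans l₄)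
      have hk := (heW i).mono (hT.trans inter_subset_left)
      obtain ⟨q, hq, hql, hqr⟩ := hk.exists_inv oT
      have oI := hk.isOpen_image oT oT subset_rfl
      refine ⟨_, fun y => h i (q y), oI, ⟨w, ?_, rfl⟩,
        asm_comp (heV i) hq hV oI fun y hy => (hT (hqr y hy).1).2, ?_⟩
      · obtain ⟨u, hu, rfl⟩ := hw
        rw [← tube_zero]
        refine ⟨pr3_tube_ne hu 0, ?_⟩
        rw [tnu_tube hu, norm_zero]
        exact p
      · rintro _ ⟨v, hv, rfl⟩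
        show a (kP i v) = h i (q (kP i v))
        rw [hql v hv]
        have hu := nrm_mem hv.1
        have hn := hv.2
        rw [← tube_tnu hv.1]
        generalize nrm (pr3 v) = u at hu ⊢
        generalize tnu v = z at hn ⊢
        by_cases hz : z = 0
        · exact ha2 i _ ((tube_mem_Sc hu).2 hz)
        · have ht : 0 < ‖z‖ := norm_pos_iff.2 hz
          have hy := nrm_mem hz
          rw [← norm_smul_nrm z, ← s₁ i _ hy _ hu _ ⟨ht, hn.trans_le l₁⟩,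
            ← s₂ i _ hy _ hu _ ⟨ht, hn.trans_le l₂⟩]
          refine ha3 _ (mt (asm_cores hσ).2 fun hm => ?_)
          have hnu : ‖‖z‖ • u‖ = ‖z‖ := by
            rw [norm_smul, norm_norm, mem_sphere_zero_iff_norm.1 hu, mul_one]
          have := (s₃ i _ hy (‖z‖ • u) (hnu.le.trans (hn.le.trans l₃))).1 hm
          rw [this, norm_zero] at hnu
          exact ht.ne hnu
    · exact ⟨_, _, oW, ⟨hx', hx⟩, h0, fun y hy => ha1 y hy.1⟩

/-- Sketch. Let the cores `k₀ i '' Sc` lie in the ball of radius `R`, and take `μ`, `R'` from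
`exists_expel`. Discs: `i v = θP (σ (μ (inv5 (rfl5 v))))` for `v ≠ 0`, `i 0 = θP (i₀ 0)` (near `0` this is
`θP ∘ i₀`), and `j' = j ∘ rfl5`. `b = θ ∘ b₀`, where `b₀ = j ∘ μ ∘ j⁻¹` on `j '' {0}ᶜ` and `b₀ = id` off
`j '' closedBall 0 R'`; `b₀` embeds `{j 0}ᶜ` onto `(j '' closedBall 0 R)ᶜ`. `a = θ ∘ j ∘ σ⁻¹ ∘ θP'` off
`cores kP`, and `a (kP i w) = h i w` on thin tubes (both formulas agree on the punctured tubes by the two
`swap` clauses). Use `emb_of_local`, `Emb.comp`, `Emb.exists_inv`. -/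
theorem asm {ι : Type} [Finite ι] {S P M' M : Mfd} {σ i₀ : E 5 → S} (hS : IsSph S σ i₀)
    {k₀ : ι → E 5 → E 5} (hk : ∀ i, ContinuousOn (k₀ i) Sc) {kP : ι → E 5 → P} {θP : S → P}
    {θP' : P → S} (hP : Surg (fun i v => σ (k₀ i v)) kP θP θP') {j : E 5 → M'}
    (hj : Emb 1 j univ) {h : ι → E 5 → M} {θ : M' → M} {θ' : M → M'}
    (hM : Surg (fun i v => j (k₀ i v)) h θ θ') : IsSum P M' M := by
  obtain ⟨R, hR, hb⟩ : ∃ R : ℝ, 0 < R ∧ ∀ i, ∀ v ∈ Sc, ‖k₀ i v‖ ≤ R := by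
    have hc : IsCompact (⋃ i, k₀ i '' Sc) :=
      isCompact_iUnion fun i => isCompact_Sc.image_of_continuousOn (hk i)
    obtain ⟨R, hR, hb⟩ := hc.isBounded.exists_pos_norm_le
    exact ⟨R, hR, fun i v hv => hb _ (mem_iUnion.2 ⟨i, v, hv, rfl⟩)⟩
  obtain ⟨μ, R', m1, m2, m3, m4, m5⟩ := exists_expel hR
  have hμ : Emb 1 μ {0}ᶜ := emb_of_contDiffOn m1 m2 fun v hv => by rw [one_mul]; exact m3 v hv
  have hK : ∀ w, w ≠ 0 → ¬∃ i, ∃ v ∈ Sc, k₀ i v = μ w := by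
    rintro w hw ⟨i, v, hv, e⟩
    have h1 : μ w ∈ {v : E 5 | R < ‖v‖} := m4 ▸ mem_image_of_mem μ hw
    exact absurd (e ▸ hb i v hv) (not_le.2 h1)
  obtain ⟨i₁, hi, hi0, hi1⟩ := asm_i hS hμ m5
  obtain ⟨b₀, hb0, hb1, hb2⟩ := asm_b hj hμ m5
  obtain ⟨a, ha, ha1, ha2⟩ := asm_a hS.emb hS.range hP hj hM
  have hσ : ∀ u, σ u ≠ i₀ 0 := fun u => by
    have : σ u ∈ range σ := mem_range_self u
    rwa [hS.range] at this
  have ho : i₀ 0 ∉ cores fun i v => σ (k₀ i v) := fun hm => by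
    obtain ⟨i, v, -, e⟩ := asm_mem.1 hm
    exact hσ _ e
  have hbm : ∀ y, y ≠ j 0 → b₀ y ∉ cores fun i v => j (k₀ i v) := fun y hy => by
    by_cases hy' : y ∈ range j
    · obtain ⟨w, rfl⟩ := hy'
      rw [hb1]
      exact mt (asm_cores hj).1 (hK w fun e => hy (by rw [e]))
    · rw [hb2 y hy']
      intro hm
      obtain ⟨i, v, -, e⟩ := asm_mem.1 hm
      exact hy' ⟨_, e⟩
  refine ⟨fun v => θP (i₁ v), fun v => j (rfl5 v), a, fun y => θ (b₀ y), ?_,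
    asm_comp hj asm_emb_rfl isOpen_univ isOpen_univ (mapsTo_univ _ _), ?_, ?_, ?_, ?_⟩
  · refine asm_comp hP.emb hi hP.fh.isCompact.isClosed.isOpen_compl isOpen_univ fun v _ => ?_
    by_cases hv : v = 0
    · rw [hv, hi0]
      exact ho
    · rw [hi1 v hv]
      exact mt (asm_cores hS.emb).1 (hK _ (inv5_ne_zero (asm_rfl_ne hv)))
  · simp only [hi0]
    exact ha
  · simp only [asm_rfl0]
    exact asm_comp hM.emb hb0 hM.fh.isCompact.isClosed.isOpen_compl isOpen_compl_singleton hbm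
  · simp only [hi0, asm_rfl0]
    intro z
    by_cases hz : z ∈ cores h
    · obtain ⟨i, w, hw, rfl⟩ := asm_mem.1 hz
      exact Or.inl ⟨kP i w, fun e => hP.maps ho (asm_mem.2 ⟨i, w, hw, e⟩), ha2 i w hw⟩
    · by_cases hy : θ' z ∈ range j
      · obtain ⟨u, hu⟩ := hy
        have hn : ¬∃ i, ∃ v ∈ Sc, k₀ i v = u := mt (asm_cores hj).2 (hu ▸ hM.maps' hz)
        refine Or.inl ⟨θP (σ u), fun e => hσ u ?_, by rw [ha1 u hn, hu, hM.right z hz]⟩
        exact hP.emb.2.1 (mt (asm_cores hS.emb).1 hn) ho e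
      · exact Or.inr ⟨θ' z, fun e => hy ⟨0, e.symm⟩, by rw [hb2 _ hy, hM.right z hz]⟩
  · simp only [hi0, asm_rfl0, asm_rfl_inv]
    intro x hx y hy
    constructor
    · intro e
      have hx' : x ∉ cores kP := fun hm => by
        obtain ⟨i, w, hw, rfl⟩ := asm_mem.1 hm
        rw [ha2 i w hw] at e
        exact hM.maps (hbm y hy) (asm_mem.2 ⟨i, w, hw, e⟩)
      have h1 : θP' x ∈ range σ := by
        rw [hS.range]
        intro e'
        exact hx (by rw [← mem_singleton_iff.1 e', hP.right x hx'])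
      obtain ⟨u, hu⟩ := h1
      have hn : ¬∃ i, ∃ v ∈ Sc, k₀ i v = u := mt (asm_cores hS.emb).2 (hu ▸ hP.maps' hx')
      obtain rfl : θP (σ u) = x := by rw [hu, hP.right x hx']
      rw [ha1 u hn] at e
      have e2 : j u = b₀ y := hM.emb.2.1 (mt (asm_cores hj).1 hn) (hbm y hy) e
      have hy' : y ∈ range j := by
        by_contra hy'
        exact hy' ⟨u, e2.trans (hb2 y hy')⟩
      obtain ⟨w, rfl⟩ := hy'
      have hw : w ≠ 0 := fun e => hy (by rw [e])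
      rw [hb1] at e2
      have hv : rfl5 (inv5 w) ≠ 0 := asm_rfl_ne (inv5_ne_zero hw)
      refine ⟨rfl5 (inv5 w), hv, ?_, by rw [rfl5_rfl5, inv5_inv5]⟩
      rw [hi1 _ hv, rfl5_rfl5, inv5_inv5, hj.2.1 trivial trivial e2]
    · rintro ⟨v, hv, rfl, rfl⟩
      rw [hi1 v hv, hb1, ha1 _ (hK _ (inv5_ne_zero (asm_rfl_ne hv)))]

end Pool.Agent.CSP
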