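import Pool.Agent.Lib.MP_436e1a_gt.B.LnkL
import Pool.Agent.Lib.MP_436e1a_gt.A.ThinL

/-! Surgery on framed links of 2-spheres as a relation between two manifolds. -/

open scoped Topology
open Set

namespace Pool.Agent.CSP

variable {ι : Type} {M M' M₁ : Mfd}

/-- a framed link in a manifold (no covering) -/
def FLM (k : ι → E 5 → M) : Prop :=
  ∃ W, IsOpen W ∧ Sc ⊆ W ∧ (∀ i, Emb 1 (k i) W) ∧ ∀ i j, ∀ v ∈ W, ∀ w ∈ W, k i v = k j w → i = j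

/-- the union of the cores -/
def cores (k : ι → E 5 → M) : Set M := ⋃ i, k i '' Sc

/-- `M'` is obtained from `M` by surgery on `h`, with dual framed link `k`; `θ` identifies the
complements of the cores -/
structure Surg (h : ι → E 5 → M) (k : ι → E 5 → M') (θ : M → M') (θ' : M' → M) : Prop where
  fh : FLM h
  fk : FLM k
  emb : Emb 1 θ (cores h)ᶜ
  emb' : Emb 1 θ' (cores k)ᶜ
  maps : MapsTo θ (cores h)ᶜ (cores k)ᶜ
  maps' : MapsTo θ' (cores k)ᶜ (cores h)ᶜ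
  left : ∀ x, x ∉ cores h → θ' (θ x) = x
  right : ∀ y, y ∉ cores k → θ (θ' y) = y
  swap : ∃ δ > 0, ∀ i, ∀ u ∈ S2, ∀ v ∈ S2, ∀ t ∈ Ioo (0 : ℝ) δ,
    θ (h i (tube u (t • v))) = k i (tube v (t • u))

/-- the identity (`false`) or `rf5` (`true`) -/
noncomputable def rf5b (b : Bool) (v : E 5) : E 5 := if b then rf5 v else v

variable {h h' : ι → E 5 → M} {k : ι → E 5 → M'} {θ : M → M'} {θ' : M' → M}

theorem rf5b_inc (b : Bool) (x : E 3) : rf5b b (inc x) = inc (rfb b x) := by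
  cases b
  · rfl
  · exact rf5_inc x

theorem sd_rfb_mem (b : Bool) {x : E 3} (hx : x ∈ S2) : rfb b x ∈ S2 := by
  rw [mem_sphere_zero_iff_norm] at hx ⊢
  rw [norm_rfb, hx]

theorem sd_rf_Sc (b : Bool) : rf5b b '' Sc = Sc := by
  ext v
  constructor
  · rintro ⟨_, ⟨x, hx, rfl⟩, rfl⟩
    exact ⟨_, sd_rfb_mem b hx, (rf5b_inc b x).symm⟩
  · rintro ⟨x, hx, rfl⟩
    exact ⟨_, ⟨_, sd_rfb_mem b hx, rfl⟩, by rw [rf5b_inc, rfb_rfb]⟩

theorem sd_rf_tube (b : Bool) (u v : E 3) (t : ℝ) :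
    rf5b b (tube u (t • v)) = tube (rfb b u) (t • rfb b v) := by
  cases b
  · rfl
  · exact (rf5_tube u _).trans (congrArg _ (rf3_smul t v))

theorem sd_rf_emb (b : Bool) (W : Set (E 5)) : Emb 1 (rf5b b) W := by
  cases b
  · exact emb_id W
  · exact emb_of_contDiffOn contDiff_rf5.contDiffOn
      (Function.LeftInverse.injective rf5_rf5).injOn fun v _ => by
        rw [show rf5b true = rf5 from rfl, det_rf5]; norm_num

theorem sd_mem (h : ι → E 5 → M) (i : ι) {v : E 5} (hv : v ∈ Sc) : h i v ∈ cores h :=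
  mem_iUnion.2 ⟨i, v, hv, rfl⟩

theorem sd_comp {X Y Z : Type} [TopologicalSpace X] [ChartedSpace (E 5) X] [TopologicalSpace Y]
    [ChartedSpace (E 5) Y] [TopologicalSpace Z] [ChartedSpace (E 5) Z] {f : X → Y} {g : Y → Z}
    {W : Set X} {V : Set Y} (hg : Emb 1 g V) (hf : Emb 1 f W) (hV : IsOpen V) (hW : IsOpen W)
    (hm : MapsTo f W V) : Emb 1 (fun x => g (f x)) W := by
  have := hg.comp hf hV hW hm
  rwa [one_mul] at this

theorem sd_norm {v : E 3} (hv : v ∈ S2) {t : ℝ} (ht : 0 < t) : ‖t • v‖ = t := by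
  rw [norm_smul, mem_sphere_zero_iff_norm.1 hv, mul_one, Real.norm_of_nonneg ht.le]

theorem FLM.isCompact [Finite ι] (H : FLM h) : IsCompact (cores h) := by
  obtain ⟨W, -, hS, hE, -⟩ := H
  exact isCompact_iUnion fun i => isCompact_Sc.image_of_continuousOn ((hE i).continuousOn.mono hS)

theorem FLM.thin [Finite ι] (H : FLM h) (A : Amb M) : Thin 2 (A.ι '' cores h) := by
  obtain ⟨W, hW, hS, hE, -⟩ := H
  refine (Thin.iUnion fun i => thin_S2.image (hW.preimage contDiff_inc.continuous)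
    (fun x hx => hS (inc_mem_Sc.2 hx)) (f := fun x => A.ι (h i (inc x))) ?_).mono ?_
  · exact ((Ctx.smOn_of_contMDiffOn (c := Ctx.triv M A) (hE i).continuousOn (hE i).1).comp
      contDiff_inc.contDiffOn fun _ hx => hx).2
  · rintro _ ⟨y, hy, rfl⟩
    obtain ⟨i, _, ⟨x, hx, rfl⟩, rfl⟩ := mem_iUnion.1 hy
    exact mem_iUnion.2 ⟨i, x, hx, rfl⟩

/-- thin tubes are embedded, disjoint, and meet the cores only in the zero section -/
theorem FLM.exists_rad (H : FLM h) : ∃ δ > 0, ∀ i, ∀ u ∈ S2, ∀ w : E 3, ‖w‖ ≤ δ →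
    (h i (tube u w) ∈ cores h → w = 0) ∧ ∀ j, ∀ u' ∈ S2, ∀ w' : E 3, ‖w'‖ ≤ δ →
      h i (tube u w) = h j (tube u' w') → i = j ∧ u = u' ∧ w = w' := by
  obtain ⟨W, hW, hS, hE, hD⟩ := H
  obtain ⟨δ, h0, hδ⟩ := exists_tube_subset (hW.mem_nhdsSet.2 hS)
  refine ⟨δ, h0, fun i u hu w hw => ⟨fun hc => ?_, fun j u' hu' w' hw' e => ?_⟩⟩
  · obtain ⟨j, v, hv, e⟩ := mem_iUnion.1 hc
    obtain rfl := hD j i v (hS hv) _ (hδ u hu w hw) e
    rw [(hE j).2.1 (hS hv) (hδ u hu w hw) e] at hv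
    exact (tube_mem_Sc hu).1 hv
  · obtain rfl := hD i j _ (hδ u hu w hw) _ (hδ u' hu' w' hw') e
    exact ⟨rfl, tube_inj hu hu' ((hE i).2.1 (hδ u hu w hw) (hδ u' hu' w' hw') e)⟩

theorem sd_notin (H : FLM h) : ∃ δ > 0, ∀ i, ∀ u ∈ S2, ∀ v ∈ S2, ∀ t ∈ Ioo (0 : ℝ) δ,
    h i (tube u (t • v)) ∉ cores h := by
  obtain ⟨δ, h0, hδ⟩ := H.exists_rad
  refine ⟨δ, h0, fun i u hu v hv t ht hc => ?_⟩
  have e := sd_norm hv ht.1
  rw [(hδ i u hu _ (e.trans_le ht.2.le)).1 hc, norm_zero] at e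
  exact ht.1.ne e

theorem FLM.congr (H : FLM h) [Finite ι] (e : ∀ i, ∀ᶠ v in 𝓝ˢ Sc, h' i v = h i v) : FLM h' := by
  obtain ⟨W, hW, hS, hE, hD⟩ := H
  obtain ⟨W', hW', hS', he⟩ := eventually_nhdsSet_iff_exists.1 (Filter.eventually_all.2 e)
  refine ⟨W ∩ W', hW.inter hW', subset_inter hS hS', fun i =>
    ((hE i).mono inter_subset_left).congr (hW.inter hW') fun v hv => he v hv.2 i,
    fun i j v hv w hw e' => hD i j v hv.1 w hw.1 ?_⟩
  rw [← he v hv.2, ← he w hw.2, e']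

theorem FLM.map (H : FLM h) {φ : M → M₁} (hφ : Emb 1 φ univ) : FLM fun i v => φ (h i v) := by
  obtain ⟨W, hW, hS, hE, hD⟩ := H
  exact ⟨W, hW, hS, fun i => sd_comp hφ (hE i) isOpen_univ hW (mapsTo_univ _ _),
    fun i j v hv w hw e => hD i j v hv w hw (hφ.2.1 trivial trivial e)⟩

theorem FLM.rf (H : FLM h) (b : ι → Bool) : FLM fun i v => h i (rf5b (b i) v) := by
  obtain ⟨W, hW, hS, hE, hD⟩ := H
  have hO := hW.inter (hW.preimage contDiff_rf5.continuous)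
  have hm : ∀ a, MapsTo (rf5b a) (W ∩ rf5 ⁻¹' W) W := fun a v hv => by
    cases a
    · exact hv.1
    · exact hv.2
  exact ⟨_, hO, fun v hv => ⟨hS hv, hS ((sd_rf_Sc true).subset ⟨v, hv, rfl⟩)⟩,
    fun i => sd_comp (hE i) (sd_rf_emb _ _) hW hO (hm _),
    fun i j v hv w hw e => hD i j _ (hm _ hv) _ (hm _ hw) e⟩

theorem Ctx.FL.flm [Finite ι] {c : Ctx} {h : ι → E 5 → c.Y} (H : c.FL h) :
    FLM fun i v => c.q (h i v) := by
  obtain ⟨W, hW, hS, h1, h2, h3⟩ := H.exists_nhds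
  refine ⟨W, hW, hS, fun i => ⟨(h1 i).contMDiffOn, fun v hv w hw e => (h3 i i v hv w hw e).2,
    fun v hv => ?_⟩, fun i j v hv w hw e => (h3 i j v hv w hw e).1⟩
  simpa using (Ctx.sgn_iff_jac (((h1 i).2.contDiffAt (hW.mem_nhds hv)).differentiableAt
    (by simp))).1 (h2 i v hv)

theorem FLM.fl (H : FLM h) (A : Amb M) : (Ctx.triv M A).FL h := by
  obtain ⟨W, hW, hS, hE, hD⟩ := H
  have sm : ∀ i, (Ctx.triv M A).SmNear (h i) Sc := fun i =>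
    ⟨W, hW, hS, Ctx.smOn_of_contMDiffOn (hE i).continuousOn (hE i).1⟩
  refine ⟨sm, fun i v hv => (Ctx.sgn_iff_jac ((sm i).differentiableAt hv)).2 ?_,
    fun i j v hv w hw e => ?_⟩
  · rw [Units.val_one, Int.cast_one]
    exact (hE i).2.2 v (hS hv)
  · obtain rfl := hD i j v (hS hv) w (hS hw) e
    exact ⟨rfl, (hE i).2.1 (hS hv) (hS hw) e⟩

/-- a diffeomorphism is an automorphism of the trivial covering -/
theorem exists_aut_triv (A : Amb M) {φ : M → M} (hφ : Emb 1 φ univ) (hs : Function.Surjective φ) :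
    ∃ ψ : (Ctx.triv M A).Aut, ∀ x : M, ψ.up x = φ x := by
  exact ⟨⟨φ, φ, continuousOn_univ.1 hφ.continuousOn, fun _ _ => rfl, fun _ => rfl, hφ, hs⟩,
    fun _ => rfl⟩

/-- in the trivial covering, smooth maps are smooth maps (`smOn_of_contMDiffOn`) -/
theorem smOn_triv_comp (A : Amb M) {V : Type} [NormedAddCommGroup V] [NormedSpace ℝ V] {s : ℝ}
    {j : E 5 → M} {W : Set (E 5)} (hj : Emb s j W) {φ : V → E 5} {O : Set V}
    (hφ : ContDiffOn ℝ (⊤ : ℕ∞) φ O) (hm : MapsTo φ O W) :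
    (Ctx.triv M A).SmOn (fun v => j (φ v)) O := by
  exact (Ctx.smOn_of_contMDiffOn (c := Ctx.triv M A) hj.continuousOn hj.1).comp hφ hm

theorem Surg.symm (H : Surg h k θ θ') : Surg k h θ' θ := by
  obtain ⟨δ, h0, hδ⟩ := H.swap
  obtain ⟨δ', h0', hδ'⟩ := sd_notin H.fh
  refine ⟨H.fk, H.fh, H.emb', H.emb, H.maps', H.maps, H.right, H.left, min δ δ', lt_min h0 h0',
    fun i u hu v hv t ht => ?_⟩
  rw [← hδ i v hv u hu t ⟨ht.1, ht.2.trans_le (min_le_left _ _)⟩,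
    H.left _ (hδ' i v hv u hu t ⟨ht.1, ht.2.trans_le (min_le_right _ _)⟩)]

theorem Surg.congr [Finite ι] (H : Surg h k θ θ') (e : ∀ i, ∀ᶠ v in 𝓝ˢ Sc, h' i v = h i v) :
    Surg h' k θ θ' := by
  have ec : cores h' = cores h :=
    iUnion_congr fun i => image_congr fun v hv => (e i).self_of_nhdsSet v hv
  obtain ⟨δ, h0, hδ⟩ := H.swap
  obtain ⟨δ', h0', hδ'⟩ := exists_tube_subset (Filter.eventually_all.2 e)
  refine ⟨H.fh.congr e, H.fk, ec ▸ H.emb, H.emb', ec ▸ H.maps, ec ▸ H.maps', ec ▸ H.left, H.right,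
    min δ δ', lt_min h0 h0', fun i u hu v hv t ht => ?_⟩
  rw [← hδ i u hu v hv t ⟨ht.1, ht.2.trans_le (min_le_left _ _)⟩,
    hδ' u hu _ ((sd_norm hv ht.1).trans_le (ht.2.le.trans (min_le_right _ _))) i]

theorem Surg.map [Finite ι] (H : Surg h k θ θ') {φ : M → M₁} (hφ : Emb 1 φ univ)
    (hs : Function.Surjective φ) : ∃ θ₁ θ₁', Surg (fun i v => φ (h i v)) k θ₁ θ₁' := by
  obtain ⟨ψ, h1, h2, h3⟩ := hφ.exists_inv isOpen_univ
  rw [image_univ_of_surjective hs] at h1 h3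
  have hc : ∀ x, φ x ∈ cores (fun i v => φ (h i v)) ↔ x ∈ cores h := fun x => by
    constructor
    · intro hx
      obtain ⟨i, v, hv, e⟩ := mem_iUnion.1 hx
      exact hφ.2.1 trivial trivial e ▸ sd_mem h i hv
    · intro hx
      obtain ⟨i, v, hv, rfl⟩ := mem_iUnion.1 hx
      exact sd_mem (fun i v => φ (h i v)) i hv
  have hm : MapsTo ψ (cores fun i v => φ (h i v))ᶜ (cores h)ᶜ := fun y hy hx => by
    rw [← hc, (h3 y trivial).2] at hx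
    exact hy hx
  obtain ⟨δ, h0, hδ⟩ := H.swap
  refine ⟨fun y => θ (ψ y), fun z => φ (θ' z), H.fh.map hφ, H.fk,
    sd_comp H.emb (h1.mono (subset_univ _)) H.fh.isCompact.isClosed.isOpen_compl
      (H.fh.map hφ).isCompact.isClosed.isOpen_compl hm,
    sd_comp hφ H.emb' isOpen_univ H.fk.isCompact.isClosed.isOpen_compl (mapsTo_univ _ _),
    fun y hy => H.maps (hm hy), fun z hz hx => H.maps' hz ((hc _).1 hx), fun y hy => ?_,
    fun z hz => ?_, δ, h0, fun i u hu v hv t ht => ?_⟩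
  · rw [H.left _ (hm hy), (h3 y trivial).2]
  · rw [h2 _ trivial, H.right z hz]
  · rw [h2 _ trivial, hδ i u hu v hv t ht]

theorem Surg.rf (H : Surg h k θ θ') (b : ι → Bool) :
    Surg (fun i v => h i (rf5b (b i) v)) (fun i v => k i (rf5b (b i) v)) θ θ' := by
  have e1 : cores (fun i v => h i (rf5b (b i) v)) = cores h := iUnion_congr fun i => by
    rw [← image_image (h i), sd_rf_Sc]
  have e2 : cores (fun i v => k i (rf5b (b i) v)) = cores k := iUnion_congr fun i => by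
    rw [← image_image (k i), sd_rf_Sc]
  obtain ⟨δ, h0, hδ⟩ := H.swap
  refine ⟨H.fh.rf b, H.fk.rf b, e1 ▸ H.emb, e2 ▸ H.emb', e1 ▸ e2 ▸ H.maps, e1 ▸ e2 ▸ H.maps',
    e1 ▸ H.left, e2 ▸ H.right, δ, h0, fun i u hu v hv t ht => ?_⟩
  rw [sd_rf_tube, sd_rf_tube]
  exact hδ i _ (sd_rfb_mem _ hu) _ (sd_rfb_mem _ hv) t ht

/-- cables become the spheres `kap`, meridians become parallels (`kap_eq`) -/
theorem Surg.eventually (H : Surg h k θ θ') : ∀ᶠ ε in 𝓝[>] (0 : ℝ), ∀ i, ∀ u ∈ S2,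
    θ (h i (sig ε u)) = k i (kap ε u) ∧ θ (h i (kap ε u)) = k i (sig ε u) ∧
    θ (h i (mer ε u)) = k i (par ε u) ∧ θ (h i (par ε u)) = k i (mer ε u) ∧
    h i (sig ε u) ∉ cores h ∧ h i (kap ε u) ∉ cores h ∧ h i (mer ε u) ∉ cores h ∧
    h i (par ε u) ∉ cores h := by
  obtain ⟨δ, h0, hδ⟩ := H.swap
  obtain ⟨δ', h0', hδ'⟩ := sd_notin H.fh
  obtain ⟨C, hC⟩ := (isCompact_sphere (0 : E 3) 1).exists_bound_of_continuousOn
    contDiff_cub0.continuous.continuousOn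
  have h1 : 0 < max C 1 := lt_max_of_lt_right one_pos
  filter_upwards [Ioo_mem_nhdsGT (div_pos (lt_min h0 h0') h1)] with ε hε i u hu
  have h2 := (lt_div_iff₀ h1).1 hε.2
  have h3 : ε < min δ δ' := (le_mul_of_one_le_right hε.1.le (le_max_right _ _)).trans_lt h2
  have h4 : ε * ‖cub0 u‖ < min δ δ' :=
    (mul_le_mul_of_nonneg_left ((hC u hu).trans (le_max_left _ _)) hε.1.le).trans_lt h2
  have h5 : 0 < ε * ‖cub0 u‖ := mul_pos hε.1 (norm_pos_iff.2 (cub0_ne_zero (ne_zero_of_S2 hu)))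
  have hd := dd_mem (ne_zero_of_S2 hu)
  rw [kap_eq hu]
  exact ⟨hδ i _ hd _ (gn_mem u) _ ⟨h5, (lt_min_iff.1 h4).1⟩,
    hδ i _ (gn_mem u) _ hd _ ⟨h5, (lt_min_iff.1 h4).1⟩,
    hδ i _ npole_mem _ hu _ ⟨hε.1, (lt_min_iff.1 h3).1⟩,
    hδ i _ hu _ npole_mem _ ⟨hε.1, (lt_min_iff.1 h3).1⟩,
    hδ' i _ hd _ (gn_mem u) _ ⟨h5, (lt_min_iff.1 h4).2⟩,
    hδ' i _ (gn_mem u) _ hd _ ⟨h5, (lt_min_iff.1 h4).2⟩,
    hδ' i _ npole_mem _ hu _ ⟨hε.1, (lt_min_iff.1 h3).2⟩,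
    hδ' i _ hu _ npole_mem _ ⟨hε.1, (lt_min_iff.1 h3).2⟩⟩

/-- A diffeomorphism that is the identity near the cores induces one of the surgered manifold:
`ψ = θ ∘ φ ∘ θ'` off the cores, the identity on the open set `⋃ k i '' (thin tube)` (`emb_of_local`,
`tube_tnu`, `isOpen_thin_tube`; write `w = ‖w‖ • nrm w`). -/
theorem Surg.induced [Finite ι] (H : Surg h k θ θ') {φ : M → M} (hφ : Emb 1 φ univ)
    (hs : Function.Surjective φ) (e : ∀ i, ∀ᶠ v in 𝓝ˢ Sc, φ (h i v) = h i v) :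
    ∃ ψ : M' → M', Emb 1 ψ univ ∧ Function.Surjective ψ ∧
      (∀ i, ∀ᶠ v in 𝓝ˢ Sc, ψ (k i v) = k i v) ∧ ∀ x, x ∉ cores h → ψ (θ x) = θ (φ x) := by
  classical
  have fix : ∀ x ∈ cores h, φ x = x := fun x hx => by
    obtain ⟨i, v, hv, rfl⟩ := mem_iUnion.1 hx
    exact (e i).self_of_nhdsSet v hv
  have hm : MapsTo φ (cores h)ᶜ (cores h)ᶜ := fun x hx hc =>
    hx (hφ.2.1 trivial trivial (fix _ hc) ▸ hc)
  obtain ⟨δ₁, p₁, h₁⟩ := H.swap
  obtain ⟨δ₂, p₂, h₂⟩ := H.symm.swap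
  obtain ⟨δ₃, p₃, h₃⟩ := exists_tube_subset (Filter.eventually_all.2 e)
  obtain ⟨W, hW, hS, hE, -⟩ := H.fk
  obtain ⟨δ₄, p₄, h₄⟩ := exists_tube_subset (hW.mem_nhdsSet.2 hS)
  obtain ⟨δ, p, l₁, l₂, l₃, l₄⟩ : ∃ δ > 0, δ ≤ δ₁ ∧ δ ≤ δ₂ ∧ δ ≤ δ₃ ∧ δ ≤ δ₄ :=
    ⟨min (min δ₁ δ₂) (min δ₃ δ₄), lt_min (lt_min p₁ p₂) (lt_min p₃ p₄),
      (min_le_left _ _).trans (min_le_left _ _), (min_le_left _ _).trans (min_le_right _ _),
      (min_le_right _ _).trans (min_le_left _ _), (min_le_right _ _).trans (min_le_right _ _)⟩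
  have oh := H.fh.isCompact.isClosed.isOpen_compl
  have ok := H.fk.isCompact.isClosed.isOpen_compl
  have oT := isOpen_thin_tube δ
  have sT : Sc ⊆ {v : E 5 | pr3 v ≠ 0 ∧ ‖tnu v‖ < δ} := by
    rintro _ ⟨u, hu, rfl⟩
    rw [← tube_zero]
    exact ⟨pr3_tube_ne hu 0, by rw [tnu_tube hu, norm_zero]; exact p⟩
  have tW : {v : E 5 | pr3 v ≠ 0 ∧ ‖tnu v‖ < δ} ⊆ W := fun v hv =>
    tube_tnu hv.1 ▸ h₄ _ (nrm_mem hv.1) _ (hv.2.le.trans l₄)
  obtain ⟨ψ, e₁, e₂⟩ : ∃ ψ : M' → M', (∀ y ∈ cores k, ψ y = y) ∧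
      ∀ y, y ∉ cores k → ψ y = θ (φ (θ' y)) :=
    ⟨fun y => if y ∈ cores k then y else θ (φ (θ' y)), fun _ hy => if_pos hy, fun _ hy => if_neg hy⟩
  have idT : ∀ i, ∀ v ∈ {v : E 5 | pr3 v ≠ 0 ∧ ‖tnu v‖ < δ}, ψ (k i v) = k i v := by
    intro i v hv
    by_cases hc : k i v ∈ cores k
    · exact e₁ _ hc
    have hu := nrm_mem hv.1
    have h0 : tnu v ≠ 0 := fun h0 => hc (sd_mem k i (tube_tnu hv.1 ▸ (tube_mem_Sc hu).2 h0))
    have hw := nrm_mem h0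
    have ht := norm_pos_iff.2 h0
    rw [e₂ _ hc, ← tube_tnu hv.1, ← norm_smul_nrm (tnu v),
      h₂ i _ hu _ hw _ ⟨ht, hv.2.trans_le l₂⟩,
      h₃ _ hw _ ((sd_norm hu ht).trans_le (hv.2.le.trans l₃)) i,
      h₁ i _ hw _ hu _ ⟨ht, hv.2.trans_le l₁⟩]
  have out : ∀ y, y ∉ cores k → ψ y ∉ cores k := fun y hy =>
    e₂ y hy ▸ H.maps (hm (H.maps' hy))
  have eb : Emb 1 (fun y => θ (φ (θ' y))) (cores k)ᶜ :=
    sd_comp H.emb (sd_comp hφ H.emb' isOpen_univ ok (mapsTo_univ _ _)) oh ok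
      fun y hy => hm (H.maps' hy)
  have key : ∀ x, x ∉ cores h → ψ (θ x) = θ (φ x) := fun x hx => by
    rw [e₂ _ (H.maps hx), H.left x hx]
  refine ⟨ψ, emb_of_local (fun y _ y' _ e' => ?_) fun y _ => ?_, fun y => ?_,
    fun i => eventually_nhdsSet_iff_exists.2 ⟨_, oT, sT, idT i⟩, key⟩
  · by_cases hy : y ∈ cores k <;> by_cases hy' : y' ∈ cores k
    · rwa [e₁ y hy, e₁ y' hy'] at e'
    · exact (out y' hy' (e' ▸ (e₁ y hy).symm ▸ hy)).elim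
    · exact (out y hy (e' ▸ (e₁ y' hy').symm ▸ hy')).elim
    · rw [e₂ y hy, e₂ y' hy'] at e'
      exact eb.2.1 hy hy' e'
  · by_cases hy : y ∈ cores k
    · obtain ⟨i, v, hv, rfl⟩ := mem_iUnion.1 hy
      refine ⟨_, id, (hE i).isOpen_image hW oT tW, ⟨v, sT hv, rfl⟩, emb_id _, ?_⟩
      rintro _ ⟨w, hw, rfl⟩
      exact idT i w hw
    · exact ⟨_, _, ok, hy, eb, e₂⟩
  · by_cases hy : y ∈ cores k
    · exact ⟨y, e₁ y hy⟩
    · obtain ⟨x, hx⟩ := hs (θ' y)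
      have hx' : x ∉ cores h := fun hc => H.maps' hy (hx ▸ (fix x hc).symm ▸ hc)
      exact ⟨θ x, by rw [key x hx', hx, H.right y hy]⟩

end Pool.Agent.CSP
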