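import Pool.Agent.Lib.MP_436e1a_gt.J.SurgDef
import Pool.Agent.Lib.MP_436e1a_gt.J.Glue
import Pool.Agent.Lib.MP_436e1a_gt.B.AmbEx
import Pool.Agent.Lib.MP_436e1a_gt.D.Conn

/-! Existence of surgeries. -/

open scoped ContDiff
open Set

namespace Pool.Agent.CSP

/-- the exchange of the two spheres in the punctured tube -/
noncomputable def swp (v : E 5) : E 5 := tube (nrm (tnu v)) (‖tnu v‖ • nrm (pr3 v))

theorem swp_tube {u v : E 3} (hu : u ∈ S2) (hv : v ∈ S2) {t : ℝ} (ht : 0 < t) :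
    swp (tube u (t • v)) = tube v (t • u) := by
  rw [swp, tnu_tube hu, nrm_pr3_tube hu, nrm_smul ht, nrm_of_S2 hv, norm_smul,
    mem_sphere_zero_iff_norm.1 hv, mul_one, Real.norm_of_nonneg ht.le]

theorem sx_form {v : E 5} (h : pr3 v ≠ 0 ∧ tnu v ≠ 0) :
    ∃ u ∈ S2, ∃ w ∈ S2, ∃ t > (0 : ℝ), v = tube u (t • w) :=
  ⟨_, nrm_mem h.1, _, nrm_mem h.2, _, norm_pos_iff.2 h.2, by rw [norm_smul_nrm, tube_tnu h.1]⟩

theorem sx_mem {u w : E 3} (hu : u ∈ S2) (hw : w ∈ S2) {t : ℝ} (ht : 0 < t) :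
    pr3 (tube u (t • w)) ≠ 0 ∧ tnu (tube u (t • w)) ≠ 0 :=
  ⟨pr3_tube_ne hu _, by rw [tnu_tube hu]; exact smul_ne_zero ht.ne' (ne_zero_of_S2 hw)⟩

theorem sx_swp {v : E 5} (h : pr3 v ≠ 0 ∧ tnu v ≠ 0) : (pr3 (swp v) ≠ 0 ∧ tnu (swp v) ≠ 0) ∧
    swp (swp v) = v ∧ ‖tnu (swp v)‖ = ‖tnu v‖ := by
  obtain ⟨u, hu, w, hw, t, ht, rfl⟩ := sx_form h
  rw [swp_tube hu hw ht, swp_tube hw hu ht, tnu_tube hu, norm_smul, mem_sphere_zero_iff_norm.1 hw]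
  exact ⟨sx_mem hw hu ht, rfl, by rw [tnu_tube hw, norm_smul, mem_sphere_zero_iff_norm.1 hu]⟩

theorem sx_open : IsOpen {v : E 5 | pr3 v ≠ 0 ∧ tnu v ≠ 0} :=
  contDiffOn_tnu.continuousOn.isOpen_inter_preimage tl_isOpen isOpen_ne

theorem sx_cd : ContDiffOn ℝ ∞ swp {v | pr3 v ≠ 0 ∧ tnu v ≠ 0} := by
  have h1 : ContDiffOn ℝ ∞ tnu {v | pr3 v ≠ 0 ∧ tnu v ≠ 0} := contDiffOn_tnu.mono fun _ h => h.1
  exact contDiff_tube.comp_contDiffOn ((contDiffOn_nrm.comp h1 fun _ h => h.2).prodMk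
    ((h1.norm ℝ fun _ h => h.2).smul (contDiffOn_nrm.comp contDiff_pr3.contDiffOn fun _ h => h.1)))

theorem sx_det {f g k : E 5 → E 5} {v : E 5} (hg : DifferentiableAt ℝ g (f v))
    (hf : DifferentiableAt ℝ f v) (h : g ∘ f =ᶠ[nhds v] k) :
    (fderiv ℝ g (f v)).det * (fderiv ℝ f v).det = (fderiv ℝ k v).det := by
  rw [← h.fderiv_eq, fderiv_comp v hg hf, sgn_det_comp]

theorem sx_ne {f g : E 5 → E 5} {v : E 5} (hg : DifferentiableAt ℝ g (f v))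
    (hf : DifferentiableAt ℝ f v) (h : g ∘ f =ᶠ[nhds v] id) : (fderiv ℝ f v).det ≠ 0 := fun e => by
  have h1 := sx_det hg hf h
  rw [e, mul_zero, fderiv_id, sgn_det_id] at h1
  exact zero_ne_one h1

/-- the exchange of two coordinate planes -/
def sx_sg (x : E 5) : E 5 := !₂[x 2, x 3, x 0, x 1, x 4]

/-- a chart in which `swp` is `sx_sg` -/
noncomputable def sx_ph (x : E 5) : E 5 := tube (gn (pr3 x)) (x 4 • gn (pr3 (sx_sg x)))

theorem sx_sg_sg (x : E 5) : sx_sg (sx_sg x) = x := by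
  ext i
  fin_cases i <;> rfl

theorem sx_sg_eq : sx_sg = fr fun k => sx_sg (EuclideanSpace.single k 1) := by
  funext y
  rw [fr_apply]
  ext i
  fin_cases i <;> simp [sx_sg, Fin.sum_univ_succ]

theorem sx_det_sg (v : E 5) : (fderiv ℝ sx_sg v).det = 1 := by
  have h2 : (Matrix.of fun i k : Fin 5 => sx_sg (EuclideanSpace.single k 1) i) =
      !![0, 0, 1, 0, 0; 0, 0, 0, 1, 0; 1, 0, 0, 0, 0; 0, 1, 0, 0, 0; 0, 0, 0, 0, 1] := by
    ext i k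
    fin_cases i <;> fin_cases k <;> simp [sx_sg]
  rw [sx_sg_eq, ContinuousLinearMap.fderiv, det_fr, h2]
  simp [Matrix.det_succ_row_zero, Fin.sum_univ_succ, Fin.succAbove]

theorem sx_point : ∃ v, (pr3 v ≠ 0 ∧ tnu v ≠ 0) ∧ 0 < (fderiv ℝ swp v).det := by
  have hs : ContDiff ℝ ∞ sx_sg := sx_sg_eq ▸ ContinuousLinearMap.contDiff _
  have h4 : ContDiff ℝ ∞ fun x : E 5 => x 4 := by fun_prop
  have hp : Differentiable ℝ sx_ph := (contDiff_tube.comp ((contDiff_gn.comp contDiff_pr3).prodMk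
    (h4.smul (contDiff_gn.comp (contDiff_pr3.comp hs))))).differentiable (by simp)
  let p : E 5 := !₂[0, 0, 0, 0, 1]
  have e : sx_sg p = p := by
    ext i
    fin_cases i <;> rfl
  have h0 : ∀ᶠ x in nhds p, 0 < x 4 :=
    h4.continuous.continuousAt.eventually_const_lt (show (0 : ℝ) < 1 from one_pos)
  have hm := sx_mem (gn_mem (pr3 p)) (gn_mem (pr3 (sx_sg p))) h0.self_of_nhds
  have h1 := sx_det ((sx_cd.contDiffAt (sx_open.mem_nhds hm)).differentiableAt (by simp)) (hp p)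
    (k := sx_ph ∘ sx_sg) (h0.mono fun x hx => by
      change swp (sx_ph x) = tube _ (x 4 • gn (pr3 (sx_sg (sx_sg x))))
      rw [sx_sg_sg]
      exact swp_tube (gn_mem _) (gn_mem _) hx)
  rw [← sx_det (hp _) (hs.differentiable (by simp) p) .rfl, sx_det_sg, e, mul_comm] at h1
  have hc : ∀ i v, DifferentiableAt ℝ (fun x : E 5 => x i) v := fun _ _ => by fun_prop
  have ht := tl_diff_tnu hm.1
  have hd : ∀ i, DifferentiableAt ℝ (fun x : E 5 => tnu x i) (sx_ph p) := fun i =>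
    differentiableAt_euclidean.1 ht i
  have k1 : ∀ x, sx_ph x 2 ≠ 0 := fun x => mul_ne_zero (Real.exp_ne_zero _) (tl_gn2 _).ne'
  have k2 : ∀ x, tnu (sx_ph x) = x 4 • gn (pr3 (sx_sg x)) := fun x => tnu_tube (gn_mem _) _
  have k3 : ∀ x : E 5, 0 < x 4 → tnu (sx_ph x) 2 ≠ 0 := fun x hx => by
    rw [k2]
    exact mul_ne_zero hx.ne' (tl_gn2 _).ne'
  have h2 := sx_ne (g := fun v => !₂[v 0 / v 2, v 1 / v 2, tnu v 0 / tnu v 2, tnu v 1 / tnu v 2,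
    ‖tnu v‖]) (differentiableAt_euclidean.2 fun i => by
      fin_cases i
      exacts [tl_div (hc 0 _) (hc 2 _) (k1 p), tl_div (hc 1 _) (hc 2 _) (k1 p),
        tl_div (hd 0) (hd 2) (k3 p h0.self_of_nhds), tl_div (hd 1) (hd 2) (k3 p h0.self_of_nhds),
        ht.norm ℝ hm.2]) (hp p) (h0.mono fun x hx => by
      obtain ⟨c, -, c0, c1, c2⟩ := tl_gn (pr3 x)
      obtain ⟨d, -, d0, d1, d2⟩ := tl_gn (pr3 (sx_sg x))
      ext i
      fin_cases i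
      · refine (div_eq_iff (k1 x)).2 ?_
        change _ * gn _ 0 = x 0 * (_ * gn _ 2)
        rw [c0, c2, mul_comm (x 0), mul_assoc]
        rfl
      · refine (div_eq_iff (k1 x)).2 ?_
        change _ * gn _ 1 = x 1 * (_ * gn _ 2)
        rw [c1, c2, mul_comm (x 1), mul_assoc]
        rfl
      · refine (div_eq_iff (k3 x hx)).2 ?_
        rw [k2]
        change _ * gn _ 0 = x 2 * (_ * gn _ 2)
        rw [d0, d2, mul_comm (x 2), mul_assoc]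
        rfl
      · refine (div_eq_iff (k3 x hx)).2 ?_
        rw [k2]
        change _ * gn _ 1 = x 3 * (_ * gn _ 2)
        rw [d1, d2, mul_comm (x 3), mul_assoc]
        rfl
      · change ‖tnu (sx_ph x)‖ = x 4
        rw [k2, norm_smul, mem_sphere_zero_iff_norm.1 (gn_mem _), mul_one,
          Real.norm_of_nonneg hx.le])
  exact ⟨_, hm, (mul_left_cancel₀ h2 h1).symm ▸ one_pos⟩

/-- `swp` is a smooth involution of a connected set, conjugate to `sx_sg` near a fixed point -/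
theorem emb_swp : Emb 1 swp {v | pr3 v ≠ 0 ∧ tnu v ≠ 0} := by
  have hd : ∀ v, pr3 v ≠ 0 ∧ tnu v ≠ 0 → DifferentiableAt ℝ swp v := fun v hv =>
    (sx_cd.contDiffAt (sx_open.mem_nhds hv)).differentiableAt (by simp)
  have hS : IsPreconnected S2 := isPreconnected_sphere (by simp [← Module.finrank_eq_rank]) _ _
  have hc : IsPreconnected {v : E 5 | pr3 v ≠ 0 ∧ tnu v ≠ 0} := by
    have e : {v : E 5 | pr3 v ≠ 0 ∧ tnu v ≠ 0} =
        (fun q : E 3 × E 3 × ℝ => tube q.1 (q.2.2 • q.2.1)) '' S2 ×ˢ S2 ×ˢ Ioi 0 := by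
      refine Subset.antisymm (fun v hv => ?_) ?_
      · obtain ⟨u, hu, w, hw, t, ht, rfl⟩ := sx_form hv
        exact ⟨(u, w, t), ⟨hu, hw, ht⟩, rfl⟩
      · rintro _ ⟨q, ⟨h1, h2, h3⟩, rfl⟩
        exact sx_mem h1 h2 h3
    rw [e]
    exact (hS.prod (hS.prod isPreconnected_Ioi)).image _ (contDiff_tube.continuous.comp
      (f := fun q : E 3 × E 3 × ℝ => (q.1, q.2.2 • q.2.1)) (by fun_prop)).continuousOn
  refine emb_of_contDiffOn sx_cd (fun a ha b hb e => ?_) fun v hv => ?_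
  · rw [← (sx_swp ha).2.1, e, (sx_swp hb).2.1]
  · rw [one_mul]
    exact hc.lt_of_ne (ContinuousLinearMap.continuous_det.comp_continuousOn
      (sx_cd.continuousOn_fderiv_of_isOpen sx_open (by simp))) (fun x hx =>
        sx_ne (hd _ (sx_swp hx).1) (hd x hx)
          (Filter.mem_of_superset (sx_open.mem_nhds hx) fun y hy => (sx_swp hy).2.1)) sx_point hv

/-- `swp`, extended by the identity on the core -/
noncomputable def sx_s (v : E 5) : E 5 := if tnu v = 0 then v else swp v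

/-- the open tube -/
def sx_T (δ : ℝ) : Set (E 5) := {v | pr3 v ≠ 0 ∧ ‖tnu v‖ < δ}

theorem sx_Sc {v : E 5} (h : pr3 v ≠ 0) : v ∈ Sc ↔ tnu v = 0 := by
  rw [← tube_mem_Sc (nrm_mem h), tube_tnu h]

theorem sx_of_Sc {v : E 5} (h : v ∈ Sc) : (∀ δ > 0, v ∈ sx_T δ) ∧ sx_s v = v := by
  have h1 := ne_zero_of_S2 (mem_Sc.1 h).1
  have h2 := (sx_Sc h1).1 h
  exact ⟨fun δ hδ => ⟨h1, by rwa [h2, norm_zero]⟩, if_pos h2⟩

theorem sx_ss {δ : ℝ} {v : E 5} (h : v ∈ sx_T δ) :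
    sx_s v ∈ sx_T δ ∧ sx_s (sx_s v) = v ∧ (sx_s v ∈ Sc → v ∈ Sc) := by
  by_cases h0 : tnu v = 0
  · have e : sx_s v = v := if_pos h0
    rw [e, e]
    exact ⟨h, rfl, id⟩
  · obtain ⟨h1, h2, h3⟩ := sx_swp ⟨h.1, h0⟩
    rw [show sx_s v = swp v from if_neg h0]
    exact ⟨⟨h1.1, h3 ▸ h.2⟩, (if_neg h1.2).trans h2, fun e => absurd ((sx_Sc h1.1).1 e) h1.2⟩

theorem sx_tube {W : Set (E 5)} (hW : IsOpen W) (h : Sc ⊆ W) :
    ∃ δ > 0, {v : E 5 | pr3 v ≠ 0 ∧ ‖tnu v‖ ≤ δ} ⊆ W := by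
  obtain ⟨δ, h1, h2⟩ := exists_tube_subset (hW.mem_nhdsSet.2 h)
  exact ⟨δ, h1, fun v hv => tube_tnu hv.1 ▸ h2 _ (nrm_mem hv.1) _ hv.2⟩

section
variable {ι : Type} {M : Mfd} {h : ι → E 5 → M} {δ : ℝ}

/-- thin tubes -/
structure sx_Tb (h : ι → E 5 → M) (δ : ℝ) : Prop where
  pos : 0 < δ
  cl : IsClosed (cores h)
  emb : ∀ i, Emb 1 (h i) (sx_T δ)
  dj : ∀ i j, ∀ v ∈ sx_T δ, ∀ w ∈ sx_T δ, h i v = h j w → i = j

/-- the new parametrisations -/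
noncomputable def sx_f (h : ι → E 5 → M) : ι ⊕ M → E 5 → M :=
  Sum.elim (fun i v => h i (sx_s v)) fun x => (chartAt (E 5) x).symm

/-- their domains -/
def sx_W (h : ι → E 5 → M) (δ : ℝ) : ι ⊕ M → Set (E 5) := Sum.elim (fun _ => sx_T δ) fun x =>
  (chartAt (E 5) x).target ∩ (chartAt (E 5) x).symm ⁻¹' (cores h)ᶜ

theorem sx_Tb.core (H : sx_Tb h δ) {i : ι} {v : E 5} (hv : v ∈ sx_T δ) (hc : h i v ∈ cores h) :
    v ∈ Sc := by
  obtain ⟨j, w, hw, e⟩ : ∃ j, ∃ w ∈ Sc, h j w = h i v := mem_iUnion.1 hc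
  have h1 := (sx_of_Sc hw).1 δ H.pos
  obtain rfl := H.dj _ _ _ h1 _ hv e
  exact (H.emb j).2.1 h1 hv e ▸ hw

theorem sx_Tb.opn (H : sx_Tb h δ) (a : ι ⊕ M) : IsOpen (sx_W h δ a) := by
  cases a
  exacts [isOpen_thin_tube δ, (chartAt (E 5) _).isOpen_inter_preimage_symm H.cl.isOpen_compl]

theorem sx_Tb.inj (H : sx_Tb h δ) (a : ι ⊕ M) : InjOn (sx_f h a) (sx_W h δ a) := by
  rcases a with i | x
  · intro a ha b hb e
    rw [← (sx_ss ha).2.1, (H.emb i).2.1 (sx_ss ha).1 (sx_ss hb).1 e, (sx_ss hb).2.1]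
  · exact (chartAt (E 5) x).symm.injOn.mono inter_subset_left

/-- off the cores the parametrisations are charts of `M` -/
theorem sx_Tb.off (H : sx_Tb h δ) (a : ι ⊕ M) : IsOpen (sx_W h δ a ∩ sx_f h a ⁻¹' (cores h)ᶜ) ∧
    Emb 1 (sx_f h a) (sx_W h δ a ∩ sx_f h a ⁻¹' (cores h)ᶜ) := by
  rcases a with i | x
  · have e : sx_W h δ (.inl i) ∩ sx_f h (.inl i) ⁻¹' (cores h)ᶜ =
        sx_T δ ∩ {v | pr3 v ≠ 0 ∧ tnu v ≠ 0} := Set.ext fun v => and_congr_right fun hv =>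
      ⟨fun h1 => ⟨hv.1, fun h2 => h1 (mem_iUnion.2 ⟨i, v, (sx_Sc hv.1).2 h2,
        congrArg (h i) (if_pos h2).symm⟩)⟩,
        fun h1 h2 => h1.2 ((sx_Sc hv.1).1 ((sx_ss hv).2.2 (H.core (sx_ss hv).1 h2)))⟩
    have ho : IsOpen (sx_T δ ∩ {v | pr3 v ≠ 0 ∧ tnu v ≠ 0}) := (isOpen_thin_tube δ).inter sx_open
    have h1 := (H.emb i).comp (emb_swp.mono inter_subset_right) (isOpen_thin_tube δ) ho
      fun v hv => ⟨(sx_swp hv.2).1.1, (sx_swp hv.2).2.2 ▸ hv.1.2⟩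
    rw [one_mul] at h1
    rw [e]
    exact ⟨ho, h1.congr ho fun v hv => congrArg (h i) (if_neg hv.2.2)⟩
  · exact ⟨(inter_eq_left.2 inter_subset_right).symm ▸ H.opn (.inr x),
      (M.emb_chart (chart_mem_atlas (E 5) x)).2.mono fun _ hv => hv.1.1⟩

theorem sx_Tb.on (H : sx_Tb h δ) {x : M} (hx : x ∈ cores h) :
    ∃ i, ∃ v ∈ Sc, x = h i v ∧ v ∈ sx_T δ ∧ sx_f h (.inl i) v = x := by
  obtain ⟨i, v, hv, rfl⟩ : ∃ j, ∃ w ∈ Sc, h j w = x := mem_iUnion.1 hx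
  exact ⟨i, v, hv, rfl, (sx_of_Sc hv).1 δ H.pos, congrArg (h i) (sx_of_Sc hv).2⟩

theorem sx_nb {x : M} (hx : x ∉ cores h) :
    chartAt (E 5) x x ∈ sx_W h δ (.inr x) ∧ sx_f h (.inr x) (chartAt (E 5) x x) = x := by
  have e := (chartAt (E 5) x).left_inv (mem_chart_source _ x)
  exact ⟨⟨mem_chart_target _ x, by rw [mem_preimage, e]; exact hx⟩, e⟩

theorem sx_Tb.nb (H : sx_Tb h δ) {x : M} (hx : x ∉ cores h) {O : Set M} (hO : IsOpen O)
    (hxO : x ∈ O) : ∃ U, IsOpen U ∧ U ⊆ sx_W h δ (.inr x) ∧ x ∈ sx_f h (.inr x) '' U ∧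
      sx_f h (.inr x) '' U ⊆ O :=
  ⟨sx_W h δ (.inr x) ∩ _, (H.opn _).inter ((chartAt (E 5) x).isOpen_inter_preimage_symm hO),
    inter_subset_left, ⟨_, ⟨(sx_nb hx).1, mem_chart_target _ x, show sx_f h (.inr x) _ ∈ O from
      (sx_nb (δ := δ) hx).2.symm ▸ hxO⟩, (sx_nb (δ := δ) hx).2⟩, by
        rintro _ ⟨v, hv, rfl⟩
        exact hv.2.2⟩

theorem sx_Tb.tr (H : sx_Tb h δ) (a b : ι ⊕ M) (v : E 5) (hv : v ∈ sx_W h δ a)
    (hb : sx_f h a v ∈ sx_f h b '' sx_W h δ b) : ∃ (N : Set (E 5)) (τ : E 5 → E 5), IsOpen N ∧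
      v ∈ N ∧ N ⊆ sx_W h δ a ∧ ContDiffOn ℝ ∞ τ N ∧ MapsTo τ N (sx_W h δ b) ∧
      (∀ u ∈ N, sx_f h b (τ u) = sx_f h a u) ∧ 0 < (fderiv ℝ τ v).det := by
  obtain ⟨u, hu, e⟩ := hb
  by_cases hc : sx_f h a v ∈ cores h
  · rcases a with i | x
    swap
    · exact absurd hc hv.2
    rcases b with j | y
    swap
    · exact absurd (show sx_f h (.inr y) u ∈ _ from e ▸ hc) hu.2
    obtain rfl := H.dj _ _ _ (sx_ss hu).1 _ (sx_ss hv).1 e
    exact ⟨_, id, H.opn _, hv, subset_rfl, contDiffOn_id, mapsTo_id _, fun _ _ => rfl, by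
      rw [fderiv_id, sgn_det_id]; exact one_pos⟩
  obtain ⟨a1, a2⟩ := H.off a
  obtain ⟨b1, b2⟩ := H.off b
  obtain ⟨g, g1, -, g2⟩ := b2.exists_inv b1
  have h1 := b2.isOpen_image b1 b1 subset_rfl
  have h2 := a2.continuousOn.isOpen_inter_preimage a1 h1
  have h3 := g1.comp (a2.mono inter_subset_left) h1 h2 fun _ hw => hw.2
  have h4 := mem_inter (show v ∈ sx_W h δ a ∩ sx_f h a ⁻¹' (cores h)ᶜ from ⟨hv, hc⟩)
    (mem_preimage.2 ((mem_image _ _ _).2 ⟨u, show u ∈ sx_W h δ b ∩ sx_f h b ⁻¹' (cores h)ᶜ from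
      ⟨hu, show sx_f h b u ∉ _ from e ▸ hc⟩, e⟩))
  exact ⟨_, _, h2, h4, fun _ hw => hw.1.1, contMDiffOn_iff_contDiffOn.1 h3.1,
    fun _ hw => (g2 _ hw.2).1.1, fun _ hw => (g2 _ hw.2).2, by
      simpa only [one_mul, jac_eq_det] using h3.2.2 v h4⟩

theorem sx_Tb.sep (H : sx_Tb h δ) (x y : M) (hxy : x ≠ y) : ∃ a b U V, IsOpen U ∧ IsOpen V ∧
    U ⊆ sx_W h δ a ∧ V ⊆ sx_W h δ b ∧ x ∈ sx_f h a '' U ∧ y ∈ sx_f h b '' V ∧
    Disjoint (sx_f h a '' U) (sx_f h b '' V) := by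
  have key : ∀ x y : M, x ∉ cores h → y ∈ cores h → ∃ a b U V, IsOpen U ∧ IsOpen V ∧
      U ⊆ sx_W h δ a ∧ V ⊆ sx_W h δ b ∧ x ∈ sx_f h a '' U ∧ y ∈ sx_f h b '' V ∧
      Disjoint (sx_f h a '' U) (sx_f h b '' V) := fun x y hx hy => by
    obtain ⟨O, O', h1, h2, h3, h4, h5⟩ := normal_separation isClosed_singleton H.cl
      (disjoint_singleton_left.2 hx)
    obtain ⟨U, u1, u2, u3, u4⟩ := H.nb hx h1 (h3 rfl)
    obtain ⟨j, w, hw, -, -, e⟩ := H.on hy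
    obtain ⟨ε, e1, e2⟩ := sx_tube ((H.emb j).continuousOn.isOpen_inter_preimage
      (isOpen_thin_tube δ) h2) fun v hv => ⟨(sx_of_Sc hv).1 δ H.pos, h4 (mem_iUnion.2 ⟨j, v, hv, rfl⟩)⟩
    refine ⟨_, .inl j, U, sx_T ε, u1, isOpen_thin_tube ε, u2, fun v hv => (e2 ⟨hv.1, hv.2.le⟩).1, u3,
      ⟨w, (sx_of_Sc hw).1 ε e1, e⟩, h5.mono u4 ?_⟩
    rintro _ ⟨v, hv, rfl⟩
    exact (e2 ⟨(sx_ss hv).1.1, (sx_ss hv).1.2.le⟩).2
  by_cases hx : x ∈ cores h <;> by_cases hy : y ∈ cores h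
  · obtain ⟨i, v, -, -, hv, rfl⟩ := H.on hx
    obtain ⟨j, w, -, -, hw, rfl⟩ := H.on hy
    by_cases e : i = j
    · subst e
      obtain ⟨U, V, h1, h2, h3, h4, h5⟩ := t2_separation (fun e : v = w => hxy (e ▸ rfl))
      exact ⟨.inl i, .inl i, sx_T δ ∩ U, sx_T δ ∩ V, (H.opn (.inl i)).inter h1,
        (H.opn (.inl i)).inter h2, inter_subset_left, inter_subset_left, ⟨v, ⟨hv, h3⟩, rfl⟩,
        ⟨w, ⟨hw, h4⟩, rfl⟩, (h5.mono inter_subset_right inter_subset_right).image (H.inj _)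
          inter_subset_left inter_subset_left⟩
    · refine ⟨.inl i, .inl j, _, _, H.opn _, H.opn _, subset_rfl, subset_rfl, ⟨v, hv, rfl⟩,
        ⟨w, hw, rfl⟩, disjoint_left.2 ?_⟩
      rintro _ ⟨a, ha, rfl⟩ ⟨b, hb, e'⟩
      exact e (H.dj _ _ _ (sx_ss hb).1 _ (sx_ss ha).1 e').symm
  · obtain ⟨a, b, U, V, h1, h2, h3, h4, h5, h6, h7⟩ := key y x hy hx
    exact ⟨b, a, V, U, h2, h1, h4, h3, h6, h5, h7.symm⟩
  · exact key x y hx hy
  · obtain ⟨O, O', h1, h2, h3, h4, h5⟩ := t2_separation hxy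
    obtain ⟨U, u1, u2, u3, u4⟩ := H.nb hx h1 h3
    obtain ⟨V, v1, v2, v3, v4⟩ := H.nb hy h2 h4
    exact ⟨_, _, U, V, u1, v1, u2, v2, u3, v3, h5.mono u4 v4⟩

theorem sx_Tb.cpt [Finite ι] (H : sx_Tb h δ) : ∃ (s : Finset (ι ⊕ M)) (K : ι ⊕ M → Set (E 5)),
    (∀ a ∈ s, IsCompact (K a) ∧ K a ⊆ sx_W h δ a) ∧ ∀ x, ∃ a ∈ s, x ∈ sx_f h a '' K a := by
  have := Fintype.ofFinite ι
  have hδ := half_lt_self H.pos
  have hC : IsCompact (⋃ i, h i '' sx_T (δ / 2))ᶜ := (isOpen_iUnion fun i =>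
    (H.emb i).isOpen_image (isOpen_thin_tube δ) (isOpen_thin_tube _)
      fun v hv => ⟨hv.1, hv.2.trans hδ⟩).isClosed_compl.isCompact
  have hx : ∀ x ∈ (⋃ i, h i '' sx_T (δ / 2))ᶜ, x ∉ cores h := fun x hx hc =>
    hx (iUnion_mono (fun i => image_mono fun v hv => (sx_of_Sc hv).1 _ (half_pos H.pos)) hc)
  choose! K K1 K2 K3 using fun x (hx : x ∉ cores h) =>
    local_compact_nhds ((H.opn (.inr x)).mem_nhds (sx_nb hx).1)
  have hn := fun x hc => sx_nb (δ := δ) (hx x hc)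
  obtain ⟨t, t1, t2⟩ := hC.elim_nhds_subcover (fun x => sx_f h (.inr x) '' K x) fun x hc => by
    have h1 := Filter.image_mem_map (m := sx_f h (.inr x)) (K1 x (hx x hc))
    rwa [(H.off (.inr x)).2.map_nhds (H.off _).1 ⟨(hn x hc).1, (hn x hc).1.2⟩, (hn x hc).2] at h1
  refine ⟨Finset.univ.disjSum t, Sum.elim (fun _ => {v | pr3 v ≠ 0 ∧ ‖tnu v‖ ≤ δ / 2}) K, ?_,
    fun x => ?_⟩
  · rintro (i | x) ha
    · exact ⟨isCompact_thin_tube _, fun v hv => ⟨hv.1, hv.2.trans_lt hδ⟩⟩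
    · have h1 := hx x (t1 x (Finset.inr_mem_disjSum.1 ha))
      exact ⟨K3 x h1, K2 x h1⟩
  · by_cases hc : x ∈ ⋃ i, h i '' sx_T (δ / 2)
    · obtain ⟨i, v, hv, rfl⟩ : ∃ j, ∃ w ∈ sx_T (δ / 2), h j w = x := mem_iUnion.1 hc
      exact ⟨.inl i, by simp, sx_s v, ⟨(sx_ss hv).1.1, (sx_ss hv).1.2.le⟩,
        congrArg (h i) (sx_ss hv).2.1⟩
    · obtain ⟨y, hy, h1⟩ := mem_iUnion₂.1 (t2 hc)
      exact ⟨.inr y, Finset.inr_mem_disjSum.2 hy, h1⟩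

theorem sx_Tb.conn (H : sx_Tb h δ) (hc : IsPreconnected (cores h)ᶜ) (S : Set M)
    (h1 : ∀ a, IsOpen (sx_W h δ a ∩ sx_f h a ⁻¹' S))
    (h2 : ∀ a, IsOpen (sx_W h δ a ∩ sx_f h a ⁻¹' Sᶜ)) : S = ∅ ∨ S = univ := by
  have k1 : ∀ S : Set M, (∀ a, IsOpen (sx_W h δ a ∩ sx_f h a ⁻¹' S)) → IsOpen (S ∩ (cores h)ᶜ) :=
    fun S hS => isOpen_iff_forall_mem_open.2 fun x hx =>
      ⟨_, by rintro _ ⟨v, hv, rfl⟩; exact ⟨hv.2, hv.1.2⟩,
        (H.off (.inr x)).2.isOpen_image (H.off _).1 (hS (.inr x)) fun v hv => ⟨hv.1, hv.1.2⟩,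
        _, ⟨(sx_nb hx.2).1, show sx_f h (.inr x) _ ∈ S from (sx_nb (δ := δ) hx.2).2.symm ▸ hx.1⟩,
        (sx_nb (δ := δ) hx.2).2⟩
  have k2 : ∀ S : Set M, (∀ a, IsOpen (sx_W h δ a ∩ sx_f h a ⁻¹' S)) →
      (cores h)ᶜ ⊆ Sᶜ → S = ∅ := fun S hS hs => eq_empty_of_forall_notMem fun x hx => by
    obtain ⟨i, v, -, -, hv, rfl⟩ := H.on (by_contra fun h3 => hs h3 hx)
    obtain ⟨w, w1, w2⟩ := ((thin_S2.image isOpen_univ (subset_univ _)
      contDiff_inc.contDiffOn).dense_compl (by simp)).inter_open_nonempty _ (hS (.inl i))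
      ⟨v, hv, hx⟩
    exact hs (fun h3 => w2 ((sx_ss w1.1).2.2 (H.core (sx_ss w1.1).1 h3))) w1.2
  rcases hc.subset_or_subset (k1 S h1) (k1 _ h2)
    (disjoint_compl_right.mono inter_subset_left inter_subset_left)
    fun x hx => (em (x ∈ S)).imp (⟨·, hx⟩) (⟨·, hx⟩) with h3 | h3
  · exact .inr (compl_empty_iff.1 (k2 _ h2 fun x hx => not_not.2 (h3 hx).1))
  · exact .inl (k2 _ h1 fun x hx => (h3 hx).1)

end

/-- The new manifold is the set `M` with the charts `sx_f`. -/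
theorem exists_surg {ι : Type} [Finite ι] {M : Mfd} {h : ι → E 5 → M} (H : FLM h) :
    ∃ (M' : Mfd) (k : ι → E 5 → M') (θ : M → M') (θ' : M' → M), Surg h k θ θ' := by
  obtain ⟨A⟩ := exists_amb M
  obtain ⟨δ, G⟩ : ∃ δ, sx_Tb h δ := by
    obtain ⟨W, w1, w2, w3, w4⟩ := id H
    obtain ⟨δ, h1, h2⟩ := sx_tube w1 w2
    have h3 : sx_T δ ⊆ W := fun v hv => h2 ⟨hv.1, hv.2.le⟩
    exact ⟨δ, h1, H.isCompact.isClosed, fun i => (w3 i).mono h3,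
      fun i j v hv w hw => w4 i j v (h3 hv) w (h3 hw)⟩
  obtain ⟨M', e, he⟩ := exists_glue (sx_f h) (sx_W h δ) G.opn G.inj (fun x => by
      by_cases hx : x ∈ cores h
      · obtain ⟨i, v, -, -, h1⟩ := G.on hx
        exact ⟨.inl i, v, h1⟩
      · exact ⟨.inr x, _, sx_nb hx⟩) G.tr G.sep G.cpt inferInstance
    (G.conn (pathConn_compl A (H.thin A)).isConnected.isPreconnected)
  have h1 : ∀ x, e x ∈ cores (fun i v => e (h i (sx_s v))) ↔ x ∈ cores h := fun x => by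
    simp only [cores, mem_iUnion, mem_image, e.apply_eq_iff_eq]
    exact exists_congr fun i => exists_congr fun v => and_congr_right fun hv => by
      rw [(sx_of_Sc hv).2]
  have h2 : Emb 1 e (cores h)ᶜ := emb_of_local e.injective.injOn fun x hx => by
    have h3 := (chartAt (E 5) x).open_source.inter G.cl.isOpen_compl
    have h4 := (he (.inr x)).comp ((M.emb_chart (chart_mem_atlas (E 5) x)).1.mono inter_subset_left)
      (G.opn _) h3 fun y hy => ⟨(chartAt (E 5) x).map_source hy.1, by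
        rw [mem_preimage, (chartAt (E 5) x).left_inv hy.1]; exact hy.2⟩
    rw [one_mul] at h4
    exact ⟨_, _, h3, ⟨mem_chart_source _ x, hx⟩, h4,
      fun y hy => congrArg e ((chartAt (E 5) x).left_inv hy.1).symm⟩
  have h3 : e '' (cores h)ᶜ = (cores fun i v => e (h i (sx_s v)))ᶜ := Set.ext fun y => by
    obtain ⟨x, rfl⟩ := e.surjective y
    rw [e.injective.mem_set_image, mem_compl_iff, mem_compl_iff, h1]
  obtain ⟨g, g1, g2, g3⟩ := h2.exists_inv G.cl.isOpen_compl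
  rw [h3] at g1 g3
  refine ⟨M', fun i v => e (h i (sx_s v)), e, g, H, ⟨sx_T δ, isOpen_thin_tube δ,
    fun v hv => (sx_of_Sc hv).1 δ G.pos, fun i => he (.inl i), fun i j v hv w hw e' =>
      G.dj _ _ _ (sx_ss hv).1 _ (sx_ss hw).1 (e.injective e')⟩, h2, g1,
    fun x hx => mt (h1 x).1 hx, fun y hy => (g3 y hy).1, g2, fun y hy => (g3 y hy).2, 1, one_pos,
    fun i u hu v hv t ht => ?_⟩
  rw [sx_s, if_neg (sx_mem hv hu ht.1).2, swp_tube hv hu ht.1]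

/-- surgery on 2-spheres keeps simple connectivity -/
theorem Surg.sc {ι : Type} [Finite ι] {M M' : Mfd} {h : ι → E 5 → M} {k : ι → E 5 → M'}
    {θ : M → M'} {θ' : M' → M} (H : Surg h k θ θ') [SimplyConnectedSpace M] :
    SimplyConnectedSpace M' := by
  obtain ⟨A⟩ := exists_amb M
  obtain ⟨A'⟩ := exists_amb M'
  have := sc_compl A (H.fh.thin A)
  let e : ((cores k)ᶜ : Set M') ≃ₜ ((cores h)ᶜ : Set M) :=
    { toFun := H.maps'.restrict _ _ _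
      invFun := H.maps.restrict _ _ _
      left_inv := fun y => Subtype.ext (H.right y y.2)
      right_inv := fun x => Subtype.ext (H.left x x.2)
      continuous_toFun := H.emb'.continuousOn.mapsToRestrict _
      continuous_invFun := H.emb.continuousOn.mapsToRestrict _ }
  have := e.toHomotopyEquiv.simplyConnectedSpace
  exact sc_of_compl A' (H.fk.thin A')

end Pool.Agent.CSP
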